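import Pool.Agent.SigOrd.Ult

/-!
The composition of two limit ultrapowers, the inner one being small compared with the completeness
of the outer one, and the action of the embeddings on small sets.
-/

universe u v

set_option linter.unusedSectionVars false

namespace Pool.Agent.SigOrd

open Filter Set Function

theorem mk_finset_lt {ι : Type u} {c : Cardinal.{u}} (hc : Cardinal.aleph0 ≤ c)
    (h : Cardinal.mk ι < c) : Cardinal.mk (Finset ι) < c := by
  rcases finite_or_infinite ι with hf | hi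
  · exact lt_of_lt_of_le Cardinal.mk_lt_aleph0 hc
  · rw [Cardinal.mk_finset_of_infinite]; exact h

section Comp

variable {I : Type u} [LinearOrder I] [WellFoundedLT I] {A : I → Type u}
variable (U : ∀ i, Ultrafilter (A i)) {J₁ J₂ : Set I}

open Classical in
theorem slice_aux (f : FS A (J₁ ∪ J₂)) {s : Finset I} (hs : Dep f.1 s) (ω' : ∀ i, A i) :
    Dep (fun ω => f.1 (J₁.piecewise ω ω')) (s.filter (· ∈ J₁)) := by
  intro x y hxy
  refine hs fun j hj => ?_
  by_cases hj1 : j ∈ J₁
  · rw [piecewise_eq_of_mem _ _ _ hj1, piecewise_eq_of_mem _ _ _ hj1]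
    exact hxy j (Finset.mem_filter.2 ⟨hj, hj1⟩)
  · rw [piecewise_eq_of_notMem _ _ _ hj1, piecewise_eq_of_notMem _ _ _ hj1]

open Classical in
/-- The slice of a finitely supported function. -/
noncomputable def slice (f : FS A (J₁ ∪ J₂)) (ω' : ∀ i, A i) : FS A J₁ :=
  ⟨fun ω => f.1 (J₁.piecewise ω ω'), f.2.choose.filter (· ∈ J₁),
    fun _ hi => (Finset.mem_filter.1 (Finset.mem_coe.1 hi)).2,
    slice_aux f f.2.choose_spec.2 ω'⟩

open Classical in
theorem slice_apply (f : FS A (J₁ ∪ J₂)) (ω' ω : ∀ i, A i) :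
    (slice f ω').1 ω = f.1 (J₁.piecewise ω ω') := rfl

open Classical in
theorem slice_dep (f : FS A (J₁ ∪ J₂)) {s : Finset I} (hs : Dep f.1 s) :
    Dep (slice f) (s.filter (· ∉ J₁)) := by
  intro x y hxy
  apply Subtype.ext
  funext ω
  rw [slice_apply, slice_apply]
  refine hs fun j hj => ?_
  by_cases hj1 : j ∈ J₁
  · rw [piecewise_eq_of_mem _ _ _ hj1, piecewise_eq_of_mem _ _ _ hj1]
  · rw [piecewise_eq_of_notMem _ _ _ hj1, piecewise_eq_of_notMem _ _ _ hj1]
    exact hxy j (Finset.mem_filter.2 ⟨hj, hj1⟩)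

open Classical in
theorem filter_sub {s : Finset I} (hs : (s : Set I) ⊆ J₁ ∪ J₂) :
    ((s.filter (· ∉ J₁) : Finset I) : Set I) ⊆ J₂ := by
  intro i hi
  have hi' := Finset.mem_filter.1 (Finset.mem_coe.1 hi)
  exact (hs (Finset.mem_coe.2 hi'.1)).resolve_left hi'.2

variable [∀ i, CountableInterFilter (U i : Filter (A i))]

open Classical in
/-- The function of the outer coordinates given by collapsing the slices. -/
noncomputable def colSlice (f : FS A (J₁ ∪ J₂)) : FS A J₂ :=
  ⟨fun ω' => col U (slice f ω'), f.2.choose.filter (· ∉ J₁), filter_sub f.2.choose_spec.1,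
    (slice_dep f f.2.choose_spec.2).comp (col U)⟩

theorem colSlice_apply (f : FS A (J₁ ∪ J₂)) (ω' : ∀ i, A i) :
    (colSlice U f).1 ω' = col U (slice f ω') := rfl

open Classical in
/-- The composition lemma. -/
theorem col_colSlice (hJ : ∀ i ∈ J₁, ∀ j ∈ J₂, i < j) {c : Cardinal.{u}}
    (hc : c.IsStrongLimit) (hA : ∀ i ∈ J₁, Cardinal.mk (A i) < c) (hJc : Cardinal.mk J₁ < c)
    (hU : ∀ i ∈ J₂, CardinalInterFilter (U i : Filter (A i)) c) (f : FS A (J₁ ∪ J₂)) :
    col U f = col U (colSlice U f) := by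
  have hmem : ∀ f' f : FS A (J₁ ∪ J₂), Rm U f' f ↔
      ∀ᶠ ω' in pf U, Rm U (slice f' ω') (slice f ω') := by
    intro f' f
    obtain ⟨s, hs, h1, h2⟩ := dep_two f' f
    exact fub_ge U hJ hc hA hU (P := fun ω => f'.1 ω ∈ f.1 ω) hs (h1.comp2 h2 fun a b => a ∈ b)
  induction f using (Rm_wf U (J := J₁ ∪ J₂)).induction with
  | _ f ih =>
    ext z
    constructor
    · intro hz
      obtain ⟨f', hf', rfl⟩ := (mem_col U).1 hz
      rw [ih f' hf', col_mem_iff]
      refine ((hmem f' f).1 hf').mono fun ω' h => ?_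
      rw [colSlice_apply, colSlice_apply, col_mem_iff]
      exact h
    · intro hz
      obtain ⟨h, hh, rfl⟩ := (mem_col U).1 hz
      obtain ⟨sf, hsf, hfd⟩ := f.2
      obtain ⟨sh, hsh, hhd⟩ := h.2
      let s₂ : Finset I := sf.filter (· ∉ J₁) ∪ sh
      have hs₂ : (s₂ : Set I) ⊆ J₂ := by
        rw [Finset.coe_union]
        exact union_subset (filter_sub hsf) hsh
      have hd1 : Dep (slice f) s₂ := (slice_dep f hfd).mono Finset.subset_union_left
      have hd2 : Dep h.1 s₂ := hhd.mono Finset.subset_union_right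
      have : Nonempty (FS A J₁) := ⟨cst ∅⟩
      obtain ⟨k, hk, hkQ⟩ := exists_choice_fun (β := FS A J₁)
        (Q := fun ω' k => Rm U k (slice f ω') ∧ col U k = h.1 ω') (s := s₂)
        (hd1.comp2 hd2 fun a b k => Rm U k a ∧ col U k = b)
      have hkQ' : ∀ᶠ ω' in pf U, Rm U (k ω') (slice f ω') ∧ col U (k ω') = h.1 ω' := by
        refine hh.mono fun ω' hω' => hkQ ω' ?_
        rw [colSlice_apply] at hω'
        exact (mem_col U).1 hω'
      -- the supports of the chosen functions are almost everywhere constant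
      let sp : FS A J₁ → Finset J₁ := fun k => k.2.choose.subtype (· ∈ J₁)
      have hsp : ∀ k : FS A J₁, Dep k.1 ((sp k).map (Embedding.subtype _)) := by
        intro k x y hxy
        refine k.2.choose_spec.2 fun j hj => hxy j ?_
        have hj1 : j ∈ J₁ := k.2.choose_spec.1 (Finset.mem_coe.2 hj)
        rw [Finset.mem_map]
        exact ⟨⟨j, hj1⟩, Finset.mem_subtype.2 hj, rfl⟩
      obtain ⟨t₀, ht₀⟩ := exists_const U (mk_finset_lt hc.aleph0_le hJc) (J := J₂) hU hs₂
        (f := fun ω' => sp (k ω')) (hk.comp sp)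
      let s₁ : Finset I := t₀.map (Embedding.subtype _)
      have hs₁ : (s₁ : Set I) ⊆ J₁ := by
        intro i hi
        obtain ⟨j, -, rfl⟩ := Finset.mem_map.1 (Finset.mem_coe.1 hi)
        exact j.2
      have hdis : ∀ j ∈ s₂, j ∉ J₁ := fun j hj hj1 =>
        lt_irrefl j (hJ j hj1 j (hs₂ (Finset.mem_coe.2 hj)))
      let f'fun : (∀ i, A i) → ZFSet.{u} := fun ω => if sp (k ω) = t₀ then (k ω).1 ω else ∅
      have hf'd : Dep f'fun (s₁ ∪ s₂) := by
        intro x y hxy
        have h1 : k x = k y := hk fun j hj => hxy j (Finset.mem_union_right _ hj)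
        show (if sp (k x) = t₀ then (k x).1 x else ∅) = (if sp (k y) = t₀ then (k y).1 y else ∅)
        rw [h1]
        by_cases h2 : sp (k y) = t₀
        · rw [if_pos h2, if_pos h2]
          refine hsp (k y) fun j hj => hxy j (Finset.mem_union_left _ ?_)
          rw [h2] at hj
          exact hj
        · rw [if_neg h2, if_neg h2]
      let f' : FS A (J₁ ∪ J₂) := ⟨f'fun, s₁ ∪ s₂, by
        rw [Finset.coe_union]
        exact union_subset_union hs₁ hs₂, hf'd⟩
      have hsl : ∀ ω', sp (k ω') = t₀ → slice f' ω' = k ω' := by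
        intro ω' h0
        apply Subtype.ext
        funext ω
        rw [slice_apply]
        have h1 : k (J₁.piecewise ω ω') = k ω' := hk fun j hj => by
          rw [piecewise_eq_of_notMem _ _ _ (hdis j hj)]
        show (if sp (k (J₁.piecewise ω ω')) = t₀ then
          (k (J₁.piecewise ω ω')).1 (J₁.piecewise ω ω') else ∅) = _
        rw [h1, if_pos h0]
        refine hsp (k ω') fun j hj => ?_
        obtain ⟨i, -, rfl⟩ := Finset.mem_map.1 hj
        rw [piecewise_eq_of_mem _ _ _]
        exact i.2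
      have hmem' : Rm U f' f := by
        rw [hmem]
        filter_upwards [ht₀, hkQ'] with ω' h1 h2
        rw [hsl ω' h1]
        exact h2.1
      refine (mem_col U).2 ⟨f', hmem', ?_⟩
      rw [ih f' hmem', col_eq_iff]
      filter_upwards [ht₀, hkQ'] with ω' h1 h2
      rw [colSlice_apply, hsl ω' h1]
      exact h2.2

theorem emb_comp (hJ : ∀ i ∈ J₁, ∀ j ∈ J₂, i < j) {c : Cardinal.{u}}
    (hc : c.IsStrongLimit) (hA : ∀ i ∈ J₁, Cardinal.mk (A i) < c) (hJc : Cardinal.mk J₁ < c)
    (hU : ∀ i ∈ J₂, CardinalInterFilter (U i : Filter (A i)) c) (x : ZFSet.{u}) :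
    emb U (J₁ ∪ J₂) x = emb U J₂ (emb U J₁ x) := by
  unfold emb
  rw [col_colSlice U hJ hc hA hJc hU]
  refine col_congr U (Eventually.of_forall fun ω' => ?_)
  rw [colSlice_apply]
  rfl

end Comp

section Small

variable {I : Type u} [LinearOrder I] [WellFoundedLT I] {A : I → Type u}
variable (U : ∀ i, Ultrafilter (A i)) [∀ i, CountableInterFilter (U i : Filter (A i))] {J : Set I}

/-- Sets hereditarily of cardinality less than `c`. -/
inductive HC (c : Cardinal.{u}) : ZFSet.{u} → Prop
  | mk (x : ZFSet.{u}) (h : x.card < c) (h' : ∀ y ∈ x, HC c y) : HC c x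

theorem mem_emb {x z : ZFSet.{u}} : z ∈ emb U J x ↔
    ∃ g : FS A J, (∀ᶠ ω in pf U, g.1 ω ∈ x) ∧ col U g = z := mem_col U

theorem emb_fix {c : Cardinal.{u}} (hU : ∀ i ∈ J, CardinalInterFilter (U i : Filter (A i)) c)
    {x : ZFSet.{u}} (hx : HC c x) : emb U J x = x := by
  induction hx with
  | mk x h h' ih =>
    ext z
    constructor
    · intro hz
      obtain ⟨g, hg, rfl⟩ := (mem_emb U).1 hz
      obtain ⟨s, hs, hd⟩ := g.2
      obtain ⟨ω₀, hω₀⟩ := hg.exists
      have : Nonempty (Shrink.{u} x) := ⟨equivShrink _ ⟨g.1 ω₀, hω₀⟩⟩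
      obtain ⟨k, hk, hkQ⟩ := exists_choice_fun (β := Shrink.{u} x)
        (Q := fun ω y => ((equivShrink x).symm y).1 = g.1 ω) (s := s)
        (hd.comp fun a y => ((equivShrink x).symm y).1 = a)
      have hc : Cardinal.mk (Shrink.{u} x) < c := h
      obtain ⟨b, hb⟩ := exists_const U hc hU hs hk
      have h1 : ∀ᶠ ω in pf U, g.1 ω = ((equivShrink x).symm b).1 := by
        filter_upwards [hg, hb] with ω h1 h2
        have := hkQ ω ⟨equivShrink x ⟨g.1 ω, h1⟩, by simp⟩
        rw [h2] at this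
        exact this.symm
      have h2 : col U g = emb U J ((equivShrink x).symm b).1 := col_congr U h1
      rw [h2, ih _ ((equivShrink x).symm b).2]
      exact ((equivShrink x).symm b).2
    · intro hz
      rw [← ih z hz, emb_mem]
      exact hz

/-- The cardinality of the image of a small set. -/
theorem card_emb_le {c : Cardinal.{u}} {K : Set I} (hKJ : ∀ k ∈ K, ∀ j ∈ J, k < j)
    (hU : ∀ i ∈ J, CardinalInterFilter (U i : Filter (A i)) c) {x : ZFSet.{u}}
    (hx : x.card < c) : (emb U (K ∪ J) x).card ≤ x.card ^ Cardinal.mk (∀ i : K, A i) := by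
  classical
  obtain ⟨ω₁, -⟩ := exists_branch U (fun _ _ => univ) (fun _ _ => univ_mem)
  let ext : (∀ i : K, A i) → ∀ i, A i := fun t i => if hi : i ∈ K then t ⟨i, hi⟩ else ω₁ i
  -- every element of the image comes from a function on the coordinates in `K`
  have key : ∀ z ∈ emb U (K ∪ J) x, ∃ k : (∀ i : K, A i) → Shrink.{u} x,
      ∃ g : FS A (K ∪ J), (∀ᶠ ω in pf U, g.1 ω = ((equivShrink x).symm (k fun i => ω i)).1) ∧
        col U g = z := by
    intro z hz
    obtain ⟨g, hg, rfl⟩ := (mem_emb U).1 hz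
    obtain ⟨s, hs, hd⟩ := g.2
    obtain ⟨ω₀, hω₀⟩ := hg.exists
    have : Nonempty (Shrink.{u} x) := ⟨equivShrink _ ⟨g.1 ω₀, hω₀⟩⟩
    obtain ⟨k, hk, hkQ⟩ := exists_choice_fun (β := Shrink.{u} x)
      (Q := fun ω y => ((equivShrink x).symm y).1 = g.1 ω) (s := s)
      (hd.comp fun a y => ((equivShrink x).symm y).1 = a)
    have hc : Cardinal.mk (Shrink.{u} x) < c := hx
    obtain ⟨k', hk', hkk'⟩ := exists_reduce U hc hU hKJ hs hk
    refine ⟨fun t => k' (ext t), g, ?_, rfl⟩
    filter_upwards [hg, hkk'] with ω h2 h3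
    have h4 := hkQ ω ⟨equivShrink x ⟨g.1 ω, h2⟩, by simp⟩
    have h5 : k' (ext fun i => ω i) = k' ω := by
      refine hk' fun j hj => ?_
      have hjK : j ∈ K := (Finset.mem_filter.1 hj).2
      simp only [ext, dif_pos hjK]
    rw [← h4, h3, h5]
  choose k g hk hg using fun z : {z // z ∈ emb U (K ∪ J) x} => key z.1 z.2
  have hinj : Injective k := by
    intro z z' hzz'
    have h1 : Re U (g z) (g z') := by
      filter_upwards [hk z, hk z'] with ω h1 h2
      rw [h1, h2, hzz']
    exact Subtype.ext ((hg z).symm.trans ((col_congr U h1).trans (hg z')))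
  have h2 : Injective fun y : Shrink.{u} (emb U (K ∪ J) x) =>
      k ((equivShrink (emb U (K ∪ J) x)).symm y) :=
    hinj.comp (equivShrink _).symm.injective
  have h3 := Cardinal.mk_le_of_injective h2
  rw [← Cardinal.power_def] at h3
  exact h3

end Small

end Pool.Agent.SigOrd
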