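import Mathlib

/-!
Formulas of set theory with bounded quantifiers and their satisfaction in the universe `ZFSet`,
and measurable cardinals.
-/

universe u

namespace Pool.Agent.SigOrd

open Filter

/-- The formulas of set theory with bounded quantifiers only, with free variables `0, …, n - 1`.
In `bex i φ` the bound variable is the variable `0` of `φ` and the free variables are shifted. -/
inductive D0 : ℕ → Type
  | mem {n : ℕ} (i j : Fin n) : D0 n
  | eq {n : ℕ} (i j : Fin n) : D0 n
  | neg {n : ℕ} (φ : D0 n) : D0 n
  | and {n : ℕ} (φ ψ : D0 n) : D0 n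
  | bex {n : ℕ} (i : Fin n) (φ : D0 (n + 1)) : D0 n

/-- Satisfaction of a formula with bounded quantifiers in the universe of sets. -/
def D0.Sat : ∀ {n : ℕ}, D0 n → (Fin n → ZFSet.{u}) → Prop
  | _, .mem i j, v => v i ∈ v j
  | _, .eq i j, v => v i = v j
  | _, .neg φ, v => ¬ φ.Sat v
  | _, .and φ ψ, v => φ.Sat v ∧ ψ.Sat v
  | _, .bex i φ, v => ∃ z, z ∈ v i ∧ φ.Sat (Fin.cons z v)

/-- `c` is a measurable cardinal: it is uncountable and there is a nonprincipal ultrafilter on it
(on the well-ordered type of its initial ordinal) which is `c`-complete, that is, closed under the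
intersections of fewer than `c` sets. -/
def IsMeasurable (c : Cardinal.{u}) : Prop :=
  Cardinal.aleph0 < c ∧ ∃ W : Ultrafilter c.ord.ToType,
    CardinalInterFilter (W : Filter c.ord.ToType) c ∧ ∀ a, {a} ∉ W

end Pool.Agent.SigOrd
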