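import Pool.Agent.SigOrd.Comp

/-!
The embeddings given by blocks of iterated measures below a limit of measurable cardinals.
-/

universe u v

set_option linter.unusedSectionVars false

namespace Pool.Agent.SigOrd

open Filter Set Function

theorem measurable_strongLimit {c : Cardinal.{u}} (hc : IsMeasurable c) : c.IsStrongLimit := by
  obtain ⟨h0, W, hW, hna⟩ := hc
  refine ⟨(lt_trans Cardinal.aleph0_pos h0).ne', fun {μ} hμ => ?_⟩
  by_contra hcon
  push Not at hcon
  have h1 : Cardinal.mk c.ord.ToType ≤ Cardinal.mk (Set μ.ord.ToType) := by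
    rw [Cardinal.mk_set]; simpa using hcon
  obtain ⟨h⟩ := Cardinal.le_def _ _ |>.1 h1
  have h2 : ∀ i : μ.ord.ToType, ∃ e : Prop, ∀ᶠ a in (W : Filter c.ord.ToType), (i ∈ h a) = e := by
    intro i
    by_cases hi : ∀ᶠ a in (W : Filter c.ord.ToType), i ∈ h a
    · exact ⟨True, hi.mono fun a ha => eq_true ha⟩
    · exact ⟨False, (Ultrafilter.eventually_not.2 hi).mono fun a ha => eq_false ha⟩
  choose e he using h2
  have h3 : ∀ᶠ a in (W : Filter c.ord.ToType), ∀ i, (i ∈ h a) = e i :=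
    (eventually_cardinal_forall (by simpa using hμ)).2 he
  obtain ⟨a, ha⟩ := h3.exists
  refine hna a ?_
  have : ∀ᶠ b in (W : Filter c.ord.ToType), b = a := by
    filter_upwards [h3] with b hb
    refine h.injective (Set.ext fun i => ?_)
    rw [hb i, ha i]
  exact this

theorem pow_lt_of_strongLimit {c a b : Cardinal.{u}} (hc : c.IsStrongLimit) (ha : a < c)
    (hb : b < c) : a ^ b < c := by
  refine lt_of_le_of_lt ?_ (hc.isStrongPrelimit (Cardinal.mul_lt_of_lt hc.aleph0_le ha hb))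
  rw [Cardinal.power_mul]
  exact Cardinal.power_le_power_right (Cardinal.cantor a).le

section Ordinals

variable {I : Type u} [LinearOrder I] [WellFoundedLT I] {A : I → Type u}
variable (U : ∀ i, Ultrafilter (A i)) [∀ i, CountableInterFilter (U i : Filter (A i))] {J : Set I}

theorem col_isOrdinal {g : FS A J} (hg : ∀ᶠ ω in pf U, (g.1 ω).IsOrdinal) :
    (col U g).IsOrdinal := by
  constructor
  · intro y hy z hz
    obtain ⟨h, hh, rfl⟩ := (mem_col U).1 hy
    obtain ⟨k, hk, rfl⟩ := (mem_col U).1 hz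
    rw [col_mem_iff]
    filter_upwards [hg, hh, hk] with ω h1 h2 h3
    exact h1.mem_trans h3 h2
  · intro x y z hx hy hz
    obtain ⟨k, hk, rfl⟩ := (mem_col U).1 hz
    obtain ⟨l, hl, rfl⟩ := (mem_col U).1 hy
    obtain ⟨m, hm, rfl⟩ := (mem_col U).1 hx
    rw [col_mem_iff]
    filter_upwards [hg, hk, hl, hm] with ω h1 h2 h3 h4
    exact h1.mem_trans' h4 h3 h2

theorem emb_isOrdinal {x : ZFSet.{u}} (hx : x.IsOrdinal) : (emb U J x).IsOrdinal :=
  col_isOrdinal U (Eventually.of_forall fun _ => hx)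

theorem subset_emb {x : ZFSet.{u}} (hx : x.IsOrdinal) : x ⊆ emb U J x := by
  induction x using ZFSet.inductionOn with
  | _ x ih =>
    intro y hy
    have hyo := hx.mem hy
    exact hyo.mem_of_subset_of_mem (emb_isOrdinal U hx) (ih y hy hyo) ((emb_mem U J).2 hy)

theorem emb_inter {x y z : ZFSet.{u}} :
    z ∈ emb U J (x ∩ y) ↔ z ∈ emb U J x ∧ z ∈ emb U J y := by
  constructor
  · intro h
    obtain ⟨g, hg, rfl⟩ := (mem_emb U).1 h
    exact ⟨(mem_emb U).2 ⟨g, hg.mono fun ω h => (ZFSet.mem_inter.1 h).1, rfl⟩,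
      (mem_emb U).2 ⟨g, hg.mono fun ω h => (ZFSet.mem_inter.1 h).2, rfl⟩⟩
  · rintro ⟨h1, h2⟩
    obtain ⟨g, hg, rfl⟩ := (mem_emb U).1 h1
    obtain ⟨g', hg', he⟩ := (mem_emb U).1 h2
    rw [col_eq_iff] at he
    refine (mem_emb U).2 ⟨g, ?_, rfl⟩
    filter_upwards [hg, hg', he] with ω a b c
    exact ZFSet.mem_inter.2 ⟨a, by rw [← c]; exact b⟩

end Ordinals

section Setup

variable (κ : Cardinal.{u}) (c : ℕ → Cardinal.{u})

/-- The index type: pairs of a level and a position. -/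
abbrev Idx : Type u := ℕ ×ₗ κ.ord.ToType

/-- The level of an index. -/
def lv (i : Idx κ) : ℕ := (ofLex i).1

/-- The position of an index. -/
def ps (i : Idx κ) : κ.ord.ToType := (ofLex i).2

/-- The factor at an index. -/
abbrev Fam : Idx κ → Type u := fun i => (c (lv κ i)).ord.ToType

variable {κ c} (W : ∀ n, Ultrafilter (c n).ord.ToType)

/-- The ultrafilter at an index. -/
abbrev UU : ∀ i, Ultrafilter (Fam κ c i) := fun i => W (lv κ i)

theorem idx_lt_iff {i j : Idx κ} : i < j ↔ lv κ i < lv κ j ∨ lv κ i = lv κ j ∧ ps κ i < ps κ j :=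
  Prod.Lex.lt_iff

variable (κ c)

/-- The admissible indices. -/
def Adm : Set (Idx κ) := {i | ((ps κ i).toOrd : Ordinal) < (c (lv κ i + 1)).ord}

/-- The block of length `θ` at level `n`. -/
def Blk (n : ℕ) (θ : κ.ord.ToType) : Set (Idx κ) := {i | lv κ i = n ∧ ps κ i < θ}

/-- `θ` is an admissible length at level `n`. -/
def AdmL (n : ℕ) (θ : κ.ord.ToType) : Prop := (θ.toOrd : Ordinal) < (c (n + 1)).ord

theorem AdmL.blk {n : ℕ} {θ : κ.ord.ToType} (h : AdmL κ c n θ) : Blk κ n θ ⊆ Adm κ c := by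
  intro i hi
  have h1 : lv κ i = n := hi.1
  have h2 : ((ps κ i).toOrd : Ordinal) < (θ.toOrd : Ordinal) :=
    (Ordinal.ToType.mk.symm.lt_iff_lt).2 hi.2
  show ((ps κ i).toOrd : Ordinal) < (c (lv κ i + 1)).ord
  rw [h1]
  exact lt_trans h2 h

/-- The union of the blocks from level `n` on. -/
def Tl (θ : ℕ → κ.ord.ToType) (n : ℕ) : Set (Idx κ) := {i | n ≤ lv κ i ∧ ps κ i < θ (lv κ i)}

theorem Tl_eq (θ : ℕ → κ.ord.ToType) (n : ℕ) : Tl κ θ n = Blk κ n (θ n) ∪ Tl κ θ (n + 1) := by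
  ext i
  simp only [Tl, Blk, mem_ofPred_eq, mem_union]
  constructor
  · rintro ⟨h1, h2⟩
    rcases h1.eq_or_lt with h | h
    · left; exact ⟨h.symm, by rw [h]; exact h2⟩
    · right; exact ⟨h, h2⟩
  · rintro (⟨h1, h2⟩ | ⟨h1, h2⟩)
    · exact ⟨h1.ge, by rw [h1]; exact h2⟩
    · exact ⟨by omega, h2⟩

variable {κ c}

theorem blk_lt_tl (θ : ℕ → κ.ord.ToType) (n : ℕ) (t : κ.ord.ToType) :
    ∀ i ∈ Blk κ n t, ∀ j ∈ Tl κ θ (n + 1), i < j := by
  intro i hi j hj
  rw [idx_lt_iff]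
  left
  have h1 : lv κ i = n := hi.1
  have h2 : n + 1 ≤ lv κ j := hj.1
  omega

/-- The standing hypotheses. -/
structure Hyp (κ : Cardinal.{u}) (c : ℕ → Cardinal.{u}) (W : ∀ n, Ultrafilter (c n).ord.ToType) :
    Prop where
  mono : StrictMono c
  unc : ∀ n, Cardinal.aleph0 < c n
  sup : κ = ⨆ n, c n
  comp : ∀ n, CardinalInterFilter (W n : Filter (c n).ord.ToType) (c n)
  npr : ∀ n a, {a} ∉ W n

variable {W} (H : Hyp κ c W)
include H

theorem Hyp.lim (n : ℕ) : (c n).IsStrongLimit :=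
  measurable_strongLimit ⟨H.unc n, W n, H.comp n, H.npr n⟩

theorem Hyp.lt (n : ℕ) : c n < κ := by
  have hb : BddAbove (range c) := Cardinal.bddAbove_of_small
  rw [H.sup]
  exact lt_of_lt_of_le (H.mono (Nat.lt_succ_self n)) (le_ciSup hb (n + 1))

theorem Hyp.exists_lt {x : Cardinal.{u}} (hx : x < κ) : ∃ n, x < c n := by
  rw [H.sup] at hx
  exact exists_lt_of_lt_ciSup hx

theorem Hyp.klim : κ.IsStrongLimit := by
  refine ⟨?_, fun {x} hx => ?_⟩
  · exact (lt_trans (lt_trans Cardinal.aleph0_pos (H.unc 0)) (H.lt 0)).ne'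
  · obtain ⟨n, hn⟩ := H.exists_lt hx
    exact lt_trans ((H.lim n).isStrongPrelimit hn) (H.lt n)

theorem Hyp.countable (i : Idx κ) : CountableInterFilter (UU W i : Filter (Fam κ c i)) := by
  have := H.comp (lv κ i)
  exact CardinalInterFilter.toCountableInterFilter (c := c (lv κ i)) _ (H.unc _)

theorem Hyp.fam_card (i : Idx κ) : Cardinal.mk (Fam κ c i) = c (lv κ i) := by
  simp

theorem Hyp.low_card (n : ℕ) {K : Set (Idx κ)} (hK : K ⊆ Adm κ c) (hn : ∀ i ∈ K, lv κ i ≤ n) :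
    Cardinal.mk K < c (n + 2) := by
  let F : K → Fin (n + 1) × (c (n + 1)).ord.ToType := fun i =>
    (⟨lv κ i.1, Nat.lt_succ_of_le (hn i.1 i.2)⟩, Ordinal.ToType.mk ⟨(ps κ i.1).toOrd, by
      have h1 : ((ps κ i.1).toOrd : Ordinal) < (c (lv κ i.1 + 1)).ord := hK i.2
      exact lt_of_lt_of_le h1 (Cardinal.ord_le_ord.2 (H.mono.monotone (by
        have := hn i.1 i.2
        omega)))⟩)
  have hF : Injective F := by
    intro i j hij
    apply Subtype.ext
    have h1 : lv κ i.1 = lv κ j.1 := by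
      have := congrArg (fun z => (z.1 : ℕ)) hij
      exact this
    have h2 : ps κ i.1 = ps κ j.1 := by
      have h3 := congrArg Prod.snd hij
      have h4 := Ordinal.ToType.mk.injective h3
      have h5 := congrArg Subtype.val h4
      exact Ordinal.ToType.mk.symm.injective (Subtype.ext h5)
    exact ofLex.injective (Prod.ext h1 h2)
  have h1 := Cardinal.mk_le_of_injective hF
  refine lt_of_le_of_lt h1 ?_
  rw [Cardinal.mk_prod]
  refine lt_of_le_of_lt ?_ (H.mono (Nat.lt_succ_self (n + 1)))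
  have h2 : Cardinal.lift.{u} (Cardinal.mk (Fin (n + 1))) ≤ c (n + 1) := by
    simp only [Cardinal.mk_fin, Cardinal.lift_natCast]
    exact (Cardinal.natCast_lt_aleph0.trans (H.unc _)).le
  have h3 : Cardinal.lift.{0} (Cardinal.mk (c (n + 1)).ord.ToType) ≤ c (n + 1) := by
    simp
  exact (mul_le_mul' h2 h3).trans (Cardinal.mul_eq_self (H.unc _).le).le

theorem Hyp.card_emb_lt (n : ℕ) {J : Set (Idx κ)} (hJ : J ⊆ Adm κ c)
    [∀ i, CountableInterFilter (UU (κ := κ) W i : Filter (Fam κ c i))] {x : ZFSet.{u}}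
    (hx : x.card < c (n + 1)) : (emb (UU (κ := κ) W) J x).card < κ := by
  have hsplit : J = {i ∈ J | lv κ i ≤ n} ∪ {i ∈ J | n < lv κ i} := by
    ext i
    simp only [mem_union, mem_ofPred_eq]
    constructor
    · intro h
      rcases le_or_gt (lv κ i) n with h' | h'
      · left; exact ⟨h, h'⟩
      · right; exact ⟨h, h'⟩
    · rintro (h | h) <;> exact h.1
  rw [hsplit]
  have h1 := card_emb_le (UU (κ := κ) W) (c := c (n + 1)) (K := {i ∈ J | lv κ i ≤ n})
    (J := {i ∈ J | n < lv κ i}) (by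
      intro k hk j hj
      rw [idx_lt_iff]
      left
      exact lt_of_le_of_lt hk.2 hj.2) (by
      intro i hi
      have := H.comp (lv κ i)
      exact CardinalInterFilter.of_cardinalInterFilter_of_le (c := c (lv κ i)) _
        (H.mono.monotone hi.2)) hx
  refine lt_of_le_of_lt h1 (lt_trans ?_ (H.lt (n + 2)))
  have hlim := H.lim (n + 2)
  refine pow_lt_of_strongLimit hlim (lt_trans hx (H.mono (Nat.lt_succ_self _))) ?_
  have h2 : Cardinal.mk (∀ i : {i ∈ J | lv κ i ≤ n}, Fam κ c i) ≤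
      c (n + 1) ^ Cardinal.mk {i ∈ J | lv κ i ≤ n} := by
    rw [Cardinal.mk_pi, ← Cardinal.prod_const']
    refine Cardinal.prod_le_prod _ _ fun i => ?_
    rw [H.fam_card]
    exact H.mono.monotone (le_trans i.2.2 (Nat.le_succ n))
  refine lt_of_le_of_lt h2 (pow_lt_of_strongLimit hlim (H.mono (Nat.lt_succ_self _)) ?_)
  exact H.low_card n (fun i hi => hJ hi.1) fun i hi => hi.2

/-- The cardinal `κ` is fixed by the embeddings given by admissible indices. -/
theorem Hyp.emb_kappa {J : Set (Idx κ)} (hJ : J ⊆ Adm κ c)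
    [∀ i, CountableInterFilter (UU (κ := κ) W i : Filter (Fam κ c i))] :
    emb (UU (κ := κ) W) J κ.ord.toZFSet = κ.ord.toZFSet := by
  have hko := ZFSet.isOrdinal_toZFSet κ.ord
  refine subset_antisymm ?_ (subset_emb _ hko)
  intro z hz
  obtain ⟨g, hg, rfl⟩ := (mem_emb _).1 hz
  have hex : ∃ n, ∀ᶠ ω in pf (UU (κ := κ) W), g.1 ω ∈ (c n).ord.toZFSet := by
    by_contra hcon
    push Not at hcon
    have h1 : ∀ n, ∀ᶠ ω in pf (UU (κ := κ) W), g.1 ω ∉ (c n).ord.toZFSet := by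
      intro n
      rcases Rm_em (UU (κ := κ) W) g (cst (c n).ord.toZFSet) with h | h
      · obtain ⟨ω, h1, h2⟩ := ((hcon n).and_eventually h).exists
        exact absurd h2 h1
      · exact h
    obtain ⟨ω, h2, h3⟩ := (hg.and (eventually_countable_forall.2 h1)).exists
    obtain ⟨o, ho, he⟩ := Ordinal.mem_toZFSet_iff.1 h2
    obtain ⟨n, hn⟩ := H.exists_lt (Cardinal.lt_ord.1 ho)
    refine h3 n ?_
    rw [← he, Ordinal.toZFSet_mem_toZFSet_iff]
    exact Cardinal.lt_ord.2 hn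
  obtain ⟨n, hn⟩ := hex
  have h1 : col (UU (κ := κ) W) g ∈ emb (UU (κ := κ) W) J (c n).ord.toZFSet :=
    (mem_emb _).2 ⟨g, hn, rfl⟩
  have h2 : (emb (UU (κ := κ) W) J (c n).ord.toZFSet).card < κ :=
    H.card_emb_lt n hJ (by
      rw [Ordinal.card_toZFSet, Cardinal.card_ord]
      exact H.mono (Nat.lt_succ_self n))
  have h3 : (emb (UU (κ := κ) W) J (c n).ord.toZFSet).IsOrdinal :=
    emb_isOrdinal _ (ZFSet.isOrdinal_toZFSet _)
  have h4 := h3.toZFSet_rank_eq
  rw [← h4] at h1 h2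
  rw [Ordinal.card_toZFSet] at h2
  exact Ordinal.toZFSet_monotone (Cardinal.lt_ord.2 h2).le h1

theorem Hyp.tail_large (n : ℕ) (b : (c n).ord.ToType) :
    ∀ᶠ a in (W n : Filter (c n).ord.ToType), b < a := by
  have := H.comp n
  have h1 : ∀ᶠ a in (W n : Filter (c n).ord.ToType), ∀ d : Iic b, a ≠ d.1 := by
    refine (eventually_cardinal_forall (c := c n) ?_).2 fun d => ?_
    · have h2 : Cardinal.mk (Iic b) < Cardinal.mk (c n).ord.ToType :=
        Cardinal.mk_Iic_lt b (by simp) (by simpa using (H.unc n).le)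
      simpa using h2
    · have h3 : ({d.1} : Set (c n).ord.ToType) ∉ W n := H.npr n d.1
      exact Ultrafilter.compl_mem_iff_notMem.2 h3
  filter_upwards [h1] with a ha
  by_contra hcon
  exact ha ⟨a, not_lt.1 hcon⟩ rfl

/-- The von Neumann ordinal of an element of `o.ToType`. -/
noncomputable def vn {o : Ordinal.{u}} (a : o.ToType) : ZFSet.{u} := (a.toOrd : Ordinal).toZFSet

/-- The coordinate at `(n, t)`. -/
def cf (n : ℕ) (t : κ.ord.ToType) (ω : ∀ i, Fam κ c i) : (c n).ord.ToType := ω (toLex (n, t))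

theorem Hyp.mem_emb_blk (n : ℕ) (θ t : κ.ord.ToType) (ht : t < θ)
    [∀ i, CountableInterFilter (UU (κ := κ) W i : Filter (Fam κ c i))] :
    vn t ∈ emb (UU (κ := κ) W) (Blk κ n θ) (c n).ord.toZFSet := by
  classical
  let ix : κ.ord.ToType → Idx κ := fun t => toLex (n, t)
  have hcf : ∀ t (x y : ∀ i, Fam κ c i), x (ix t) = y (ix t) → cf n t x = cf n t y :=
    fun t x y h => h
  have hs : ∀ t, t < θ → (({ix t} : Finset (Idx κ)) : Set (Idx κ)) ⊆ Blk κ n θ := by
    intro t ht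
    rw [Finset.coe_singleton, singleton_subset_iff]
    exact ⟨rfl, ht⟩
  let g : ∀ t, t < θ → FS (Fam κ c) (Blk κ n θ) := fun t ht =>
    ⟨fun ω => vn (cf n t ω), {ix t}, hs t ht, fun x y hxy => by
      show vn (cf n t x) = vn (cf n t y)
      rw [hcf t x y (hxy (ix t) (Finset.mem_singleton_self _))]⟩
  have hgo : ∀ t ht, (col (UU (κ := κ) W) (g t ht)).IsOrdinal := fun t ht =>
    col_isOrdinal _ (Eventually.of_forall fun ω => ZFSet.isOrdinal_toZFSet _)
  have hgm : ∀ t ht, col (UU (κ := κ) W) (g t ht) ∈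
      emb (UU (κ := κ) W) (Blk κ n θ) (c n).ord.toZFSet := by
    intro t ht
    refine (mem_emb _).2 ⟨g t ht, Eventually.of_forall fun ω => ?_, rfl⟩
    exact Ordinal.toZFSet_mem_toZFSet_iff.2 (cf n t ω).toOrd.2
  have hlt : ∀ t' ht' t ht, t' < t → Rm (UU (κ := κ) W) (g t' ht') (g t ht) := by
    intro t' ht' t ht htt
    have hlt' : ix t' < ix t := by
      rw [idx_lt_iff]; right; exact ⟨rfl, htt⟩
    have hd : Dep (fun ω : (∀ i, Fam κ c i) => (g t' ht').1 ω ∈ (g t ht).1 ω)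
        (insert (ix t) {ix t'}) := by
      intro x y hxy
      have h1 := hcf t x y (hxy (ix t) (by simp))
      have h2 := hcf t' x y (hxy (ix t') (by simp))
      show (vn (cf n t' x) ∈ vn (cf n t x)) = (vn (cf n t' y) ∈ vn (cf n t y))
      rw [h1, h2]
    refine (ev_step_iff (UU (κ := κ) W) (s := {ix t'}) (i := ix t) (by
      intro j hj
      rw [Finset.mem_singleton.1 hj]; exact hlt') hd).2 ?_
    refine Eventually.of_forall fun ω => ?_
    rw [step_def]
    have h3 : ∀ᶠ a in (W n : Filter (c n).ord.ToType), cf n t' ω < a :=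
      H.tail_large n (cf n t' ω)
    refine h3.mono fun a ha => ?_
    show vn (cf n t' (update ω (ix t) a)) ∈ vn (cf n t (update ω (ix t) a))
    have h4 : cf n t' (update ω (ix t) a) = cf n t' ω :=
      hcf t' _ _ (update_of_ne hlt'.ne _ _)
    have h5 : cf n t (update ω (ix t) a) = a := update_self (ix t) _ ω
    rw [h4, h5]
    exact Ordinal.toZFSet_mem_toZFSet_iff.2 (by
      have := (Ordinal.ToType.mk.symm.lt_iff_lt (x := cf n t' ω) (y := a)).2 ha
      exact this)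
  have hsub : ∀ t ht, vn t ⊆ col (UU (κ := κ) W) (g t ht) := by
    intro t
    induction t using (wellFounded_lt (α := κ.ord.ToType)).induction with
    | _ t ih =>
      intro ht y hy
      obtain ⟨o, ho, he⟩ := Ordinal.mem_toZFSet_iff.1 hy
      let t' : κ.ord.ToType := Ordinal.ToType.mk ⟨o, lt_trans ho t.toOrd.2⟩
      have ht' : t' < t := by
        have h1 : t'.toOrd < t.toOrd := by
          simp only [t', Ordinal.ToType.toOrd, OrderIso.symm_apply_apply]
          exact ho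
        exact (Ordinal.ToType.mk.symm.lt_iff_lt).1 h1
      have hvn : vn t' = y := by
        rw [← he]
        simp only [vn, t', Ordinal.ToType.toOrd, OrderIso.symm_apply_apply]
      have h1 := ih t' ht' (lt_trans ht' ht)
      rw [hvn] at h1
      have h2 : col (UU (κ := κ) W) (g t' (lt_trans ht' ht)) ∈ col (UU (κ := κ) W) (g t ht) :=
        (col_mem_iff _).2 (hlt t' (lt_trans ht' ht) t ht ht')
      refine ZFSet.IsOrdinal.mem_of_subset_of_mem ?_ (hgo t ht) h1 h2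
      rw [← he]
      exact ZFSet.isOrdinal_toZFSet _
  exact (ZFSet.isOrdinal_toZFSet _).mem_of_subset_of_mem
    (emb_isOrdinal _ (ZFSet.isOrdinal_toZFSet _)) (hsub t ht) (hgm t ht)

omit H in
theorem blk_fixed {n : ℕ} {x x' : ZFSet.{u}}
    [∀ i, CountableInterFilter (UU (κ := κ) W i : Filter (Fam κ c i))] {θ : κ.ord.ToType}
    (hx : emb (UU (κ := κ) W) (Blk κ n θ) x = x) (hx' : emb (UU (κ := κ) W) (Blk κ n θ) x' = x')
    (h : x ∩ (c n).ord.toZFSet = x' ∩ (c n).ord.toZFSet) {y : ZFSet.{u}}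
    (hy : y ∈ emb (UU (κ := κ) W) (Blk κ n θ) (c n).ord.toZFSet) (hyx : y ∈ x) : y ∈ x' := by
  have h1 : y ∈ emb (UU (κ := κ) W) (Blk κ n θ) (x ∩ (c n).ord.toZFSet) :=
    (emb_inter _).2 ⟨by rw [hx]; exact hyx, hy⟩
  rw [h] at h1
  have h2 := ((emb_inter _).1 h1).1
  rwa [hx'] at h2

/-- A set fixed by all admissible blocks of level `n` is determined below `c (n + 1)` by its part
below `c n`. -/
theorem Hyp.determined {n : ℕ} {x x' : ZFSet.{u}}
    [∀ i, CountableInterFilter (UU (κ := κ) W i : Filter (Fam κ c i))]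
    (hx : ∀ θ, AdmL κ c n θ → emb (UU (κ := κ) W) (Blk κ n θ) x = x)
    (hx' : ∀ θ, AdmL κ c n θ → emb (UU (κ := κ) W) (Blk κ n θ) x' = x')
    (h : x ∩ (c n).ord.toZFSet = x' ∩ (c n).ord.toZFSet) :
    x ∩ (c (n + 1)).ord.toZFSet = x' ∩ (c (n + 1)).ord.toZFSet := by
  have key : ∀ x x' : ZFSet.{u},
      (∀ θ, AdmL κ c n θ → emb (UU (κ := κ) W) (Blk κ n θ) x = x) →
      (∀ θ, AdmL κ c n θ → emb (UU (κ := κ) W) (Blk κ n θ) x' = x') →
      x ∩ (c n).ord.toZFSet = x' ∩ (c n).ord.toZFSet →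
      ∀ y, y ∈ x → y ∈ (c (n + 1)).ord.toZFSet → y ∈ x' := by
    intro x x' hx hx' h y hyx hy
    obtain ⟨o, ho, rfl⟩ := Ordinal.mem_toZFSet_iff.1 hy
    have hlt : (c (n + 1)).ord < κ.ord := Cardinal.ord_lt_ord.2 (H.lt (n + 1))
    have ho1 : o + 1 < (c (n + 1)).ord :=
      (Cardinal.isSuccLimit_ord (H.unc (n + 1)).le).add_one_lt ho
    let t : κ.ord.ToType := Ordinal.ToType.mk ⟨o, lt_trans ho hlt⟩
    let θ : κ.ord.ToType := Ordinal.ToType.mk ⟨o + 1, lt_trans ho1 hlt⟩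
    have htθ : t < θ := by
      refine Ordinal.ToType.mk.lt_iff_lt.2 ?_
      show o < o + 1
      exact Order.lt_add_one_iff.2 le_rfl
    have hadm : AdmL κ c n θ := by
      have h3 : (θ.toOrd : Ordinal) = o + 1 := by
        simp only [θ, Ordinal.ToType.toOrd, OrderIso.symm_apply_apply]
      show (θ.toOrd : Ordinal) < (c (n + 1)).ord
      rw [h3]; exact ho1
    have h4 := H.mem_emb_blk n θ t htθ
    have h5 : vn t = o.toZFSet := by
      simp only [vn, t, Ordinal.ToType.toOrd, OrderIso.symm_apply_apply]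
    rw [h5] at h4
    exact blk_fixed (hx θ hadm) (hx' θ hadm) h h4 hyx
  ext y
  rw [ZFSet.mem_inter, ZFSet.mem_inter]
  constructor
  · rintro ⟨h1, h2⟩
    exact ⟨key x x' hx hx' h y h1 h2, h2⟩
  · rintro ⟨h1, h2⟩
    exact ⟨key x' x hx' hx h.symm y h1 h2, h2⟩

theorem Hyp.blk_card {n : ℕ} {θ : κ.ord.ToType} (hθ : AdmL κ c n θ) :
    Cardinal.mk (Blk κ n θ) < c (n + 1) := by
  let F : Blk κ n θ → (θ.toOrd : Ordinal).ToType := fun i =>
    Ordinal.ToType.mk ⟨(ps κ i.1).toOrd, (Ordinal.ToType.mk.symm.lt_iff_lt).2 i.2.2⟩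
  have hF : Injective F := by
    intro i j hij
    apply Subtype.ext
    have h1 : lv κ i.1 = lv κ j.1 := i.2.1.trans j.2.1.symm
    have h2 : ps κ i.1 = ps κ j.1 := by
      have h4 := Ordinal.ToType.mk.injective hij
      have h5 := congrArg Subtype.val h4
      exact Ordinal.ToType.mk.symm.injective (Subtype.ext h5)
    exact ofLex.injective (Prod.ext h1 h2)
  refine lt_of_le_of_lt (Cardinal.mk_le_of_injective hF) ?_
  have h1 : (θ.toOrd : Ordinal).card < c (n + 1) := Cardinal.lt_ord.1 hθ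
  simpa using h1

/-- The relevant part of the composition lemma. -/
theorem Hyp.tl_comp (θ : ℕ → κ.ord.ToType) (n : ℕ) (hθ : AdmL κ c n (θ n))
    [∀ i, CountableInterFilter (UU (κ := κ) W i : Filter (Fam κ c i))] (x : ZFSet.{u}) :
    emb (UU (κ := κ) W) (Tl κ θ n) x =
      emb (UU (κ := κ) W) (Tl κ θ (n + 1)) (emb (UU (κ := κ) W) (Blk κ n (θ n)) x) := by
  rw [Tl_eq]
  refine emb_comp (UU (κ := κ) W) (blk_lt_tl θ n (θ n)) (H.lim (n + 1)) ?_ (H.blk_card hθ) ?_ x
  · intro i hi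
    rw [H.fam_card, hi.1]
    exact H.mono (Nat.lt_succ_self n)
  · intro i hi
    have := H.comp (lv κ i)
    exact CardinalInterFilter.of_cardinalInterFilter_of_le (c := c (lv κ i)) _
      (H.mono.monotone hi.1)

theorem Hyp.tl_adm (θ : ℕ → κ.ord.ToType) (n : ℕ) (hθ : ∀ m, n ≤ m → AdmL κ c m (θ m)) :
    Tl κ θ n ⊆ Adm κ c := by
  intro i hi
  exact AdmL.blk κ c (hθ _ hi.1) ⟨rfl, hi.2⟩

end Setup

/-! ### Well-orderings -/

/-- `R` is a well-ordering of `D`, in the strict or in the reflexive sense. -/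
structure WellOrders (R : ZFSet.{u} → ZFSet.{u} → Prop) (D : ZFSet.{u}) : Prop where
  field : ∀ x y, R x y → x ∈ D ∧ y ∈ D
  total : ∀ x ∈ D, ∀ y ∈ D, x ≠ y → R x y ∨ R y x
  antisymm : ∀ x y, R x y → R y x → x = y
  trans : ∀ x y z, R x y → R y z → x ≠ z → R x z
  least : ∀ S : Set ZFSet.{u}, (∀ x ∈ S, x ∈ D) → S.Nonempty → ∃ m ∈ S, ∀ x ∈ S, x ≠ m → R m x

/-- An order preserving map of a well-ordering into itself is inflationary. -/
theorem WellOrders.infl {R : ZFSet.{u} → ZFSet.{u} → Prop} {D : ZFSet.{u}} (hR : WellOrders R D)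
    {f : ZFSet.{u} → ZFSet.{u}} (hf : ∀ x y, R x y → R (f x) (f y)) (hinj : Injective f)
    (hD : ∀ x ∈ D, f x ∈ D) {x : ZFSet.{u}} (hx : x ∈ D) (hne : f x ≠ x) : R x (f x) := by
  by_contra hcon
  have hbad : R (f x) x := (hR.total x hx _ (hD x hx) hne.symm).resolve_left hcon
  obtain ⟨m, ⟨hm1, hm2⟩, hmin⟩ := hR.least {x | R (f x) x ∧ f x ≠ x} (fun x hx => (hR.field _ _ hx.1).2)
    ⟨x, hbad, hne⟩
  have h1 : R (f (f m)) (f m) := hf _ _ hm1
  have h2 : f (f m) ≠ f m := fun h => hm2 (hinj h)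
  have h3 : R m (f m) := hmin (f m) ⟨h1, h2⟩ hm2
  exact hm2 (hR.antisymm _ _ hm1 h3)

theorem HC_of_transitive {c : Cardinal.{u}} {t : ZFSet.{u}} (ht : t.IsTransitive)
    (hc : t.card < c) (y : ZFSet.{u}) (hy : y ∈ t) : HC c y := by
  induction y using ZFSet.inductionOn with
  | _ y ih =>
    exact HC.mk y (lt_of_le_of_lt (ZFSet.card_mono (ht.subset_of_mem hy)) hc)
      fun z hz => ih z hz (ht.subset_of_mem hy hz)

theorem main {κ : Cardinal.{u}} {c : ℕ → Cardinal.{u}} {W : ∀ n, Ultrafilter (c n).ord.ToType}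
    (H : Hyp κ c W) {R : ZFSet.{u} → ZFSet.{u} → Prop} {D : ZFSet.{u}} (hR : WellOrders R D)
    (hD : D ⊆ ZFSet.powerset κ.ord.toZFSet) (hcard : κ < D.card) {p : ZFSet.{u}}
    (hp : ∃ t : ZFSet.{u}, t.IsTransitive ∧ p ∈ t ∧ t.card < κ) {φ : D0 5}
    (hφ : ∀ x y, R x y ↔ ∃ w, φ.Sat ![w, x, y, κ.ord.toZFSet, p]) : False := by
  have hcount : ∀ i, CountableInterFilter (UU (κ := κ) W i : Filter (Fam κ c i)) := H.countable
  obtain ⟨t, ht, hpt, htc⟩ := hp
  obtain ⟨m₀, hm₀⟩ := H.exists_lt htc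
  have hpHC : HC (c m₀) p := HC_of_transitive ht hm₀ p hpt
  -- the embeddings which fix the parameters
  let Good : Set (Idx κ) → Prop := fun J => J ⊆ Adm κ c ∧ ∀ i ∈ J, m₀ ≤ lv κ i
  have hpres : ∀ J, Good J → ∀ x y, R x y →
      R (emb (UU (κ := κ) W) J x) (emb (UU (κ := κ) W) J y) := by
    intro J hJ x y hxy
    have hk := H.emb_kappa hJ.1
    have hp : emb (UU (κ := κ) W) J p = p := by
      refine emb_fix (UU (κ := κ) W) (c := c m₀) ?_ hpHC
      intro i hi
      have := H.comp (lv κ i)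
      exact CardinalInterFilter.of_cardinalInterFilter_of_le (c := c (lv κ i)) _
        (H.mono.monotone (hJ.2 i hi))
    obtain ⟨w, hw⟩ := (hφ x y).1 hxy
    obtain ⟨w', hw'⟩ := emb_sigma (UU (κ := κ) W) J φ ![x, y, κ.ord.toZFSet, p] ⟨w, hw⟩
    refine (hφ _ _).2 ⟨w', ?_⟩
    have he : (Fin.cons w' fun i => emb (UU (κ := κ) W) J
        ((![x, y, κ.ord.toZFSet, p] : Fin 4 → ZFSet) i) : Fin 5 → ZFSet) =
        ![w', emb (UU (κ := κ) W) J x, emb (UU (κ := κ) W) J y, κ.ord.toZFSet, p] := by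
      funext i
      fin_cases i
      · rfl
      · rfl
      · rfl
      · exact hk
      · exact hp
    rw [he] at hw'
    exact hw'
  have hinj : ∀ J, Injective (emb (UU (κ := κ) W) J) := fun J x y h => (emb_inj _ J).1 h
  have hDD : ∀ J, Good J → ∀ x ∈ D, emb (UU (κ := κ) W) J x ∈ D := by
    intro J hJ x hx
    have h1 : ∃ y ∈ D, y ≠ x := by
      by_contra hcon
      push Not at hcon
      have h2 : D ⊆ {x} := fun y hy => ZFSet.mem_singleton.2 (hcon y hy)
      have h3 := ZFSet.card_mono h2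
      rw [ZFSet.card_singleton] at h3
      have h4 : (1 : Cardinal.{u}) < κ :=
        lt_trans (Cardinal.one_lt_aleph0) (lt_trans (H.unc 0) (H.lt 0))
      exact absurd (lt_trans h4 hcard) (not_lt.2 h3)
    obtain ⟨y, hy, hne⟩ := h1
    rcases hR.total x hx y hy hne.symm with h | h
    · exact (hR.field _ _ (hpres J hJ _ _ h)).1
    · exact (hR.field _ _ (hpres J hJ _ _ h)).2
  -- every element of `D` is eventually fixed by all blocks
  have hfix : ∀ x ∈ D, ∃ n₀, m₀ ≤ n₀ ∧ ∀ n, n₀ ≤ n → ∀ θ, AdmL κ c n θ →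
      emb (UU (κ := κ) W) (Blk κ n θ) x = x := by
    intro x hx
    by_contra hcon
    push Not at hcon
    have hθ : ∀ n, ∃ θ, AdmL κ c n θ ∧ ((∃ θ', AdmL κ c n θ' ∧
        emb (UU (κ := κ) W) (Blk κ n θ') x ≠ x) → emb (UU (κ := κ) W) (Blk κ n θ) x ≠ x) := by
      intro n
      by_cases h : ∃ θ', AdmL κ c n θ' ∧ emb (UU (κ := κ) W) (Blk κ n θ') x ≠ x
      · obtain ⟨θ', h1, h2⟩ := h
        exact ⟨θ', h1, fun _ => h2⟩
      · have h0 : (0 : Ordinal.{u}) < (c (n + 1)).ord := by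
          rw [Cardinal.lt_ord]
          simpa using lt_trans Cardinal.aleph0_pos (H.unc (n + 1))
        refine ⟨Ordinal.ToType.mk ⟨0, lt_trans h0 (Cardinal.ord_lt_ord.2 (H.lt (n + 1)))⟩, ?_,
          fun h' => absurd h' h⟩
        show ((Ordinal.ToType.toOrd _ : Iio κ.ord) : Ordinal) < _
        simp only [Ordinal.ToType.toOrd, OrderIso.symm_apply_apply]
        exact h0
    choose θ hθ1 hθ2 using hθ
    let y : ℕ → ZFSet.{u} := fun n => emb (UU (κ := κ) W) (Tl κ θ n) x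
    have hGT : ∀ n, m₀ ≤ n → Good (Tl κ θ n) := fun n hn =>
      ⟨H.tl_adm θ n fun m _ => hθ1 m, fun i hi => le_trans hn hi.1⟩
    have hGB : ∀ n, m₀ ≤ n → Good (Blk κ n (θ n)) := fun n hn =>
      ⟨AdmL.blk κ c (hθ1 n), fun i hi => by rw [hi.1]; exact hn⟩
    have hyD : ∀ n, m₀ ≤ n → y n ∈ D := fun n hn => hDD _ (hGT n hn) x hx
    have hy : ∀ n, y n = emb (UU (κ := κ) W) (Tl κ θ (n + 1))
        (emb (UU (κ := κ) W) (Blk κ n (θ n)) x) := fun n => H.tl_comp θ n (hθ1 n) x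
    have hstep : ∀ n, m₀ ≤ n → emb (UU (κ := κ) W) (Blk κ n (θ n)) x ≠ x →
        R (y (n + 1)) (y n) ∧ y (n + 1) ≠ y n := by
      intro n hn hne
      have h1 : R x (emb (UU (κ := κ) W) (Blk κ n (θ n)) x) :=
        hR.infl (hpres _ (hGB n hn)) (hinj _) (hDD _ (hGB n hn)) hx hne
      have h2 := hpres _ (hGT (n + 1) (le_trans hn (Nat.le_succ n))) _ _ h1
      rw [← hy n] at h2
      refine ⟨h2, fun h3 => ?_⟩
      have h4 : emb (UU (κ := κ) W) (Tl κ θ (n + 1)) x = emb (UU (κ := κ) W) (Tl κ θ (n + 1))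
        (emb (UU (κ := κ) W) (Blk κ n (θ n)) x) := by rw [← hy n]; exact h3
      exact hne (hinj _ h4).symm
    have hweak : ∀ n, m₀ ≤ n → y (n + 1) = y n ∨ R (y (n + 1)) (y n) := by
      intro n hn
      by_cases h : emb (UU (κ := κ) W) (Blk κ n (θ n)) x = x
      · left
        rw [hy n, h]
      · right
        exact (hstep n hn h).1
    obtain ⟨m, ⟨k, hk, rfl⟩, hmin⟩ := hR.least {z | ∃ n, m₀ ≤ n ∧ y n = z} (by
      rintro z ⟨n, hn, rfl⟩
      exact hyD n hn) ⟨y m₀, m₀, le_rfl, rfl⟩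
    have hle : ∀ d, y (k + d) = y k := by
      intro d
      induction d with
      | zero => rfl
      | succ d ih =>
        by_contra hne
        have h1 := hmin (y (k + (d + 1))) ⟨k + (d + 1), by omega, rfl⟩ hne
        rcases hweak (k + d) (by omega) with h2 | h2
        · exact hne (h2.trans ih)
        · rw [ih] at h2
          exact hne (hR.antisymm _ _ h2 h1)
    obtain ⟨n, hn, θ', hθ'1, hθ'2⟩ := hcon k hk
    obtain ⟨d, rfl⟩ := Nat.exists_eq_add_of_le hn
    have h3 := (hstep (k + d) (by omega) (hθ2 (k + d) ⟨θ', hθ'1, hθ'2⟩)).2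
    exact h3 ((hle (d + 1)).trans (hle d).symm)
  choose! n₀ hn₀ hfix using hfix
  -- the counting
  let F : Shrink.{u} D → Σ n : ℕ, Set (c n).ord.ToType := fun z =>
    ⟨n₀ ((equivShrink D).symm z).1, {a | vn a ∈ ((equivShrink D).symm z).1}⟩
  have hvn : ∀ n (y : ZFSet.{u}), y ∈ (c n).ord.toZFSet → ∃ a : (c n).ord.ToType, vn a = y := by
    intro n y hy
    obtain ⟨o, ho, rfl⟩ := Ordinal.mem_toZFSet_iff.1 hy
    exact ⟨Ordinal.ToType.mk ⟨o, ho⟩, by
      simp only [vn, Ordinal.ToType.toOrd, OrderIso.symm_apply_apply]⟩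
  have hF : Injective F := by
    intro z z' hzz'
    have hx := ((equivShrink D).symm z).2
    have hx' := ((equivShrink D).symm z').2
    apply (equivShrink D).symm.injective
    apply Subtype.ext
    set x := ((equivShrink D).symm z).1 with hxdef
    set x' := ((equivShrink D).symm z').1 with hxdef'
    have h1 : n₀ x = n₀ x' := congrArg Sigma.fst hzz'
    have h2 : x ∩ (c (n₀ x)).ord.toZFSet = x' ∩ (c (n₀ x)).ord.toZFSet := by
      have h3 : (⟨n₀ x, {a | vn a ∈ x}⟩ : Σ n : ℕ, Set (c n).ord.ToType) =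
        ⟨n₀ x', {a | vn a ∈ x'}⟩ := hzz'
      rw [← h1] at h3
      have h4 : {a : (c (n₀ x)).ord.ToType | vn a ∈ x} = {a | vn a ∈ x'} :=
        eq_of_heq (Sigma.mk.inj_iff.1 h3).2
      ext y
      rw [ZFSet.mem_inter, ZFSet.mem_inter]
      constructor
      · rintro ⟨h5, h6⟩
        obtain ⟨a, rfl⟩ := hvn _ _ h6
        have : a ∈ {a : (c (n₀ x)).ord.ToType | vn a ∈ x} := h5
        rw [h4] at this
        exact ⟨this, h6⟩
      · rintro ⟨h5, h6⟩
        obtain ⟨a, rfl⟩ := hvn _ _ h6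
        have : a ∈ {a : (c (n₀ x)).ord.ToType | vn a ∈ x'} := h5
        rw [← h4] at this
        exact ⟨this, h6⟩
    have h3 : ∀ d, x ∩ (c (n₀ x + d)).ord.toZFSet = x' ∩ (c (n₀ x + d)).ord.toZFSet := by
      intro d
      induction d with
      | zero => exact h2
      | succ d ih =>
        exact H.determined (hfix x hx _ (Nat.le_add_right _ _))
          (hfix x' hx' _ (by rw [h1]; exact Nat.le_add_right _ _)) ih
    have key : ∀ x x' : ZFSet.{u}, x ∈ D → (∀ d, x ∩ (c (n₀ x + d)).ord.toZFSet =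
        x' ∩ (c (n₀ x + d)).ord.toZFSet) → x ⊆ x' := by
      intro x x' hx h y hy
      have h4 : y ∈ κ.ord.toZFSet := ZFSet.mem_powerset.1 (hD hx) hy
      obtain ⟨o, ho, rfl⟩ := Ordinal.mem_toZFSet_iff.1 h4
      obtain ⟨n, hn⟩ := H.exists_lt (Cardinal.lt_ord.1 ho)
      have h5 : o.toZFSet ∈ (c (n₀ x + n)).ord.toZFSet := by
        rw [Ordinal.toZFSet_mem_toZFSet_iff, Cardinal.lt_ord]
        exact lt_of_lt_of_le hn (H.mono.monotone (Nat.le_add_left _ _))
      have h6 : o.toZFSet ∈ x ∩ (c (n₀ x + n)).ord.toZFSet := ZFSet.mem_inter.2 ⟨hy, h5⟩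
      rw [h n] at h6
      exact (ZFSet.mem_inter.1 h6).1
    refine subset_antisymm (key x x' hx h3) (key x' x hx' fun d => ?_)
    rw [← h1]
    exact (h3 d).symm
  have h1 := Cardinal.mk_le_of_injective hF
  have h2 : Cardinal.mk (Σ n : ℕ, Set (c n).ord.ToType) ≤ κ := by
    rw [Cardinal.mk_sigma]
    refine (Cardinal.sum_le_sum _ (fun _ => κ) fun n => ?_).trans ?_
    · rw [Cardinal.mk_set]
      refine (H.klim.isStrongPrelimit ?_).le
      simpa using H.lt n
    · rw [Cardinal.sum_const]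
      refine (Cardinal.mul_le_of_le ?_ ?_ ?_)
      all_goals simp [H.klim.aleph0_le]
  exact absurd (lt_of_lt_of_le hcard (h1.trans h2)) (lt_irrefl _)

end Pool.Agent.SigOrd
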