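import Mathlib

/-!
The iterated product filter of a well-ordered family of countably complete ultrafilters, on the
functions with finite support.
-/

universe u v

set_option linter.unusedSectionVars false

namespace Pool.Agent.SigOrd

open Filter Set Function

theorem mk_pi_lt {ι : Type u} [Finite ι] {A : ι → Type u} {c : Cardinal.{u}}
    (hc : Cardinal.aleph0 ≤ c) (h : ∀ i, Cardinal.mk (A i) < c) :
    Cardinal.mk (∀ i, A i) < c := by
  rcases isEmpty_or_nonempty ι with he | hne
  · refine lt_of_lt_of_le ?_ hc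
    exact Cardinal.mk_lt_aleph0
  · obtain ⟨i₀, hi₀⟩ := Finite.exists_max (fun i => Cardinal.mk (A i))
    have hle : Cardinal.mk (∀ i, A i) ≤ Cardinal.mk (A i₀) ^ Cardinal.mk ι := by
      rw [Cardinal.mk_pi, ← Cardinal.prod_const']
      exact Cardinal.prod_le_prod _ _ hi₀
    refine lt_of_le_of_lt hle ?_
    rcases lt_or_ge (Cardinal.mk (A i₀)) Cardinal.aleph0 with hfin | hinf
    · exact lt_of_lt_of_le (Cardinal.power_lt_aleph0 hfin Cardinal.mk_lt_aleph0) hc
    · obtain ⟨n, hn⟩ := Cardinal.lt_aleph0.1 (Cardinal.mk_lt_aleph0 (α := ι))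
      rw [hn]
      exact lt_of_le_of_lt (Cardinal.power_nat_le hinf) (h i₀)

section Prod

variable {I : Type u} [LinearOrder I] [WellFoundedLT I] {A : I → Type u}

/-- A dependent strategy: a set of allowed values at `i`, given the values below `i`. -/
abbrev Strat (A : I → Type u) := ∀ i, (∀ j, j < i → A j) → Set (A i)

/-- The iterated product filter. -/
def pf (U : ∀ i, Ultrafilter (A i)) : Filter (∀ i, A i) where
  sets := {X | ∃ B : Strat A, (∀ i p, B i p ∈ U i) ∧
    ∀ ω : (∀ i, A i), (∀ i, ω i ∈ B i (fun j _ => ω j)) → ω ∈ X}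
  univ_sets := ⟨fun _ _ => univ, fun _ _ => univ_mem, fun _ _ => trivial⟩
  sets_of_superset := by
    rintro X Y ⟨B, hB, hX⟩ hXY
    exact ⟨B, hB, fun ω hω => hXY (hX ω hω)⟩
  inter_sets := by
    rintro X Y ⟨B, hB, hX⟩ ⟨C, hC, hY⟩
    refine ⟨fun i p => B i p ∩ C i p, fun i p => inter_mem (hB i p) (hC i p), fun ω hω => ?_⟩
    exact ⟨hX ω fun i => (hω i).1, hY ω fun i => (hω i).2⟩

variable (U : ∀ i, Ultrafilter (A i))

theorem mem_pf {X : Set (∀ i, A i)} : X ∈ pf U ↔ ∃ B : Strat A, (∀ i p, B i p ∈ U i) ∧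
    ∀ ω : (∀ i, A i), (∀ i, ω i ∈ B i (fun j _ => ω j)) → ω ∈ X := Iff.rfl

theorem ev_pf {P : (∀ i, A i) → Prop} : (∀ᶠ ω in pf U, P ω) ↔
    ∃ B : Strat A, (∀ i p, B i p ∈ U i) ∧
    ∀ ω : (∀ i, A i), (∀ i, ω i ∈ B i (fun j _ => ω j)) → P ω := Iff.rfl

theorem exists_branch (B : Strat A) (hB : ∀ i p, B i p ∈ U i) :
    ∃ ω : (∀ i, A i), ∀ i, ω i ∈ B i (fun j _ => ω j) := by
  classical
  have hne : ∀ i p, (B i p).Nonempty := fun i p => Ultrafilter.nonempty_of_mem (hB i p)
  let F : ∀ i, (∀ j, j < i → A j) → A i := fun i p => (hne i p).some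
  let ω : ∀ i, A i := (wellFounded_lt (α := I)).fix F
  refine ⟨ω, fun i => ?_⟩
  have h : ω i = F i (fun j _ => ω j) := WellFounded.fix_eq _ F i
  rw [h]
  exact (hne i _).some_mem

instance pf_neBot : (pf U).NeBot := by
  refine ⟨fun h => ?_⟩
  have h0 : (∅ : Set (∀ i, A i)) ∈ pf U := by rw [h]; exact mem_bot
  obtain ⟨B, hB, hX⟩ := (mem_pf U).1 h0
  obtain ⟨ω, hω⟩ := exists_branch U B hB
  exact hX ω hω

instance pf_countable [∀ i, CountableInterFilter (U i : Filter (A i))] :
    CountableInterFilter (pf U) := by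
  refine ⟨fun S hS hS' => ?_⟩
  rcases S.eq_empty_or_nonempty with rfl | hne
  · simp
  obtain ⟨f, rfl⟩ := hS.exists_eq_range hne
  have h : ∀ n, f n ∈ pf U := fun n => hS' _ (mem_range_self n)
  choose B hB hX using fun n => (mem_pf U).1 (h n)
  refine (mem_pf U).2 ⟨fun i p => ⋂ n, B n i p, fun i p => ?_, fun ω hω => ?_⟩
  · have : (⋂ n, B n i p) ∈ (U i : Filter (A i)) := countable_iInter_mem.2 fun n => hB n i p
    exact this
  · rw [sInter_range]
    exact mem_iInter.2 fun n => hX n ω fun i => mem_iInter.1 (hω i) n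

/-- `f` depends only on the coordinates in the finite set `s`. -/
def Dep {β : Sort*} (f : (∀ i, A i) → β) (s : Finset I) : Prop :=
  ∀ ⦃x y : ∀ i, A i⦄, (∀ i ∈ s, x i = y i) → f x = f y

theorem Dep.mono {β : Sort*} {f : (∀ i, A i) → β} {s t : Finset I} (h : Dep f s) (hst : s ⊆ t) :
    Dep f t := fun _ _ hxy => h fun i hi => hxy i (hst hi)

theorem Dep.const {β : Sort*} (b : β) (s : Finset I) : Dep (A := A) (fun _ => b) s :=
  fun _ _ _ => rfl

theorem Dep.comp {β : Sort*} {γ : Sort*} {f : (∀ i, A i) → β} {s : Finset I} (h : Dep f s)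
    (g : β → γ) : Dep (fun ω => g (f ω)) s := fun _ _ hxy => congrArg g (h hxy)

theorem Dep.comp2 {β : Sort*} {γ : Sort*} {δ : Sort*} {f : (∀ i, A i) → β}
    {g : (∀ i, A i) → γ} {s : Finset I} (h : Dep f s) (h' : Dep g s)
    (k : β → γ → δ) : Dep (fun ω => k (f ω) (g ω)) s := fun _ _ hxy => by
  show k _ _ = k _ _
  rw [h hxy, h' hxy]

/-- One step of the iterated quantifier. -/
def Step (i : I) (P : (∀ i, A i) → Prop) : (∀ i, A i) → Prop := by
  classical
  exact fun ω => ∀ᶠ a in (U i : Filter (A i)), P (update ω i a)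

open Classical in
theorem step_def (i : I) (P : (∀ i, A i) → Prop) (ω : ∀ i, A i) :
    Step U i P ω ↔ ∀ᶠ a in (U i : Filter (A i)), P (update ω i a) := Iff.rfl

open Classical in
theorem Dep.step {P : (∀ i, A i) → Prop} {s : Finset I} {i : I} (h : Dep P (insert i s)) :
    Dep (Step U i P) s := by
  intro x y hxy
  have : ∀ a, P (update x i a) = P (update y i a) := fun a => h fun j hj => by
    by_cases hji : j = i
    · subst hji; simp
    · rw [update_of_ne hji, update_of_ne hji]
      exact hxy j ((Finset.mem_insert.1 hj).resolve_left hji)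
  show (∀ᶠ a in (U i : Filter (A i)), P (update x i a)) = _
  simp_rw [this]
  rfl

open Classical in
theorem ev_of_step {P : (∀ i, A i) → Prop} {s : Finset I} {i : I} (hs : ∀ j ∈ s, j < i)
    (h : Dep P (insert i s)) (hP : ∀ᶠ ω in pf U, Step U i P ω) : ∀ᶠ ω in pf U, P ω := by
  obtain ⟨B, hB, hX⟩ := (ev_pf U).1 hP
  obtain ⟨ω₀, -⟩ := exists_branch U B hB
  let ext : (∀ j, j < i → A j) → ∀ j, A j := fun p j => if hj : j < i then p j hj else ω₀ j
  let C : (∀ j, j < i → A j) → Set (A i) := fun p =>
    if Step U i P (ext p) then {a | P (update (ext p) i a)} else univ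
  have hC : ∀ p, C p ∈ U i := by
    intro p
    by_cases hp : Step U i P (ext p)
    · simp only [C, if_pos hp]; exact hp
    · simp only [C, if_neg hp]; exact univ_mem
  refine (ev_pf U).2 ⟨fun j => if hj : j = i then
    fun p => B j p ∩ (hj ▸ C) p else B j, ?_, ?_⟩
  · intro j p
    by_cases hj : j = i
    · subst hj
      simp only [dite_true]
      exact inter_mem (hB j p) (hC p)
    · simp only [hj, dite_false]
      exact hB j p
  · intro ω hω
    have h1 : Step U i P ω := by
      refine hX ω fun j => ?_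
      have := hω j
      by_cases hj : j = i
      · subst hj
        simp only [dite_true] at this
        exact this.1
      · simp only [hj, dite_false] at this
        exact this
    have h2 := hω i
    simp only [dite_true] at h2
    have h3 : ω i ∈ C (fun j _ => ω j) := h2.2
    have hagree : ∀ j ∈ s, (ext fun j _ => ω j) j = ω j := by
      intro j hj
      simp only [ext, hs j hj, dite_true]
    have h4 : Step U i P (ext fun j _ => ω j) := by
      rw [Dep.step U h hagree]
      exact h1
    simp only [C, if_pos h4] at h3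
    have h5 : P (update (ext fun j _ => ω j) i (ω i)) := h3
    rwa [h (y := ω)] at h5
    intro j hj
    by_cases hji : j = i
    · subst hji; simp
    · rw [update_of_ne hji]
      exact hagree j ((Finset.mem_insert.1 hj).resolve_left hji)

open Classical in
theorem ultra {P : (∀ i, A i) → Prop} {s : Finset I} (h : Dep P s) :
    (∀ᶠ ω in pf U, P ω) ∨ (∀ᶠ ω in pf U, ¬ P ω) := by
  induction s using Finset.induction_on_max generalizing P with
  | empty =>
    obtain ⟨ω₀, -⟩ := exists_branch U (fun _ _ => univ) (fun _ _ => univ_mem)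
    by_cases h0 : P ω₀
    · left
      refine Eventually.of_forall fun ω => ?_
      rw [h (y := ω₀) (by simp)]; exact h0
    · right
      refine Eventually.of_forall fun ω => ?_
      rw [h (y := ω₀) (by simp)]; exact h0
  | insert i s hs ih =>
    rcases ih (Dep.step U h) with h1 | h1
    · left
      exact ev_of_step U hs h h1
    · right
      refine ev_of_step U hs (P := fun ω => ¬ P ω) (h.comp Not) ?_
      refine h1.mono fun ω hω => ?_
      rw [step_def] at hω ⊢
      exact Ultrafilter.eventually_not.2 hω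

theorem ev_not {P : (∀ i, A i) → Prop} {s : Finset I} (h : Dep P s) :
    (∀ᶠ ω in pf U, ¬ P ω) ↔ ¬ ∀ᶠ ω in pf U, P ω := by
  constructor
  · intro h1 h2
    obtain ⟨ω, hω⟩ := (h1.and h2).exists
    exact hω.1 hω.2
  · intro h1
    exact (ultra U h).resolve_left h1

theorem ev_step_iff {P : (∀ i, A i) → Prop} {s : Finset I} {i : I} (hs : ∀ j ∈ s, j < i)
    (h : Dep P (insert i s)) : (∀ᶠ ω in pf U, P ω) ↔ ∀ᶠ ω in pf U, Step U i P ω := by
  classical
  refine ⟨fun hP => ?_, ev_of_step U hs h⟩
  by_contra hcon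
  rw [← ev_not U (Dep.step U h)] at hcon
  have : ∀ᶠ ω in pf U, ¬ P ω := by
    refine ev_of_step U hs (P := fun ω => ¬ P ω) (h.comp Not) ?_
    refine hcon.mono fun ω hω => ?_
    rw [step_def] at hω ⊢
    exact Ultrafilter.eventually_not.2 hω
  rw [ev_not U h] at this
  exact this hP

/-! ### Almost constant functions -/

theorem ultra_const {α β : Type u} (V : Ultrafilter α) {c : Cardinal.{u}}
    [CardinalInterFilter (V : Filter α) c] (hc : Cardinal.mk β < c) (g : α → β) :
    ∃ b, ∀ᶠ a in (V : Filter α), g a = b := by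
  by_contra hcon
  have h1 : ∀ b, ∀ᶠ a in (V : Filter α), g a ≠ b := fun b =>
    Ultrafilter.eventually_not.2 fun h => hcon ⟨b, h⟩
  have h2 := (eventually_cardinal_forall hc).2 h1
  obtain ⟨a, ha⟩ := h2.exists
  exact ha (g a) rfl

/-- A choice of the almost everywhere value of `g`, as a function of `g`. -/
noncomputable def aeVal {α β : Type u} (V : Ultrafilter α) [Nonempty β] (g : α → β) : β :=
  Classical.epsilon fun b => ∀ᶠ a in (V : Filter α), g a = b

theorem aeVal_spec {α β : Type u} (V : Ultrafilter α) [Nonempty β] {c : Cardinal.{u}}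
    [CardinalInterFilter (V : Filter α) c] (hc : Cardinal.mk β < c) (g : α → β) :
    ∀ᶠ a in (V : Filter α), g a = aeVal V g :=
  Classical.epsilon_spec (ultra_const V hc g)

open Classical in
/-- A finitely supported function whose coordinates in `s` outside of the initial part `s₁` are
`c`-complete and which takes fewer than `c` values is almost everywhere equal to one supported in
`s₁`. -/
theorem exists_reduce {β : Type u} {c : Cardinal.{u}} (hc : Cardinal.mk β < c)
    {J : Set I} (hJ : ∀ i ∈ J, CardinalInterFilter (U i : Filter (A i)) c)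
    {K : Set I} (hKJ : ∀ k ∈ K, ∀ j ∈ J, k < j) {s : Finset I} (hs : (s : Set I) ⊆ K ∪ J)
    {f : (∀ i, A i) → β} (hf : Dep f s) :
    ∃ g : (∀ i, A i) → β, Dep g (s.filter (· ∈ K)) ∧ ∀ᶠ ω in pf U, f ω = g ω := by
  induction s using Finset.induction_on_max generalizing f with
  | empty => exact ⟨f, by simpa using hf, Eventually.of_forall fun _ => rfl⟩
  | insert i s hsi ih =>
    by_cases hiK : i ∈ K
    · refine ⟨f, ?_, Eventually.of_forall fun _ => rfl⟩
      have : (insert i s).filter (· ∈ K) = insert i s := by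
        refine Finset.filter_true_of_mem fun j hj => ?_
        rcases Finset.mem_insert.1 hj with rfl | hj'
        · exact hiK
        · rcases hs (Finset.mem_coe.2 hj) with h | h
          · exact h
          · exact absurd (hKJ i hiK j h) (not_lt.2 (hsi j hj').le)
      rw [this]; exact hf
    · have hiJ : i ∈ J := (hs (Finset.mem_coe.2 (Finset.mem_insert_self i s))).resolve_left hiK
      have := hJ i hiJ
      obtain ⟨ω₀, -⟩ := exists_branch U (fun _ _ => univ) (fun _ _ => univ_mem)
      have : Nonempty β := ⟨f ω₀⟩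
      let f' : (∀ i, A i) → β := fun ω => aeVal (U i) fun a => f (update ω i a)
      have hf' : Dep f' s := by
        intro x y hxy
        have : (fun a => f (update x i a)) = fun a => f (update y i a) := by
          funext a
          refine hf fun j hj => ?_
          by_cases hji : j = i
          · subst hji; simp
          · rw [update_of_ne hji, update_of_ne hji]
            exact hxy j ((Finset.mem_insert.1 hj).resolve_left hji)
        simp only [f', this]
      obtain ⟨g, hg, hfg⟩ := ih (fun j hj => hs (by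
        rw [Finset.coe_insert]; exact mem_insert_of_mem _ hj)) hf'
      refine ⟨g, ?_, ?_⟩
      · rw [Finset.filter_insert, if_neg hiK]; exact hg
      · have hni : i ∉ s := fun h => lt_irrefl i (hsi i h)
        refine (ev_step_iff U hsi (P := fun ω => f ω = g ω) ?_).2 ?_
        · intro x y hxy
          have h1 : f x = f y := hf hxy
          have h2 : g x = g y := hg fun j hj =>
            hxy j (Finset.mem_insert_of_mem (Finset.mem_filter.1 hj).1)
          simp only [h1, h2]
        · refine hfg.mono fun ω hω => ?_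
          rw [step_def]
          have h3 : ∀ᶠ a in (U i : Filter (A i)), f (update ω i a) = f' ω :=
            aeVal_spec (U i) hc _
          refine h3.mono fun a ha => ?_
          rw [ha, hω]
          refine hg fun j hj => ?_
          rw [update_of_ne]
          rintro rfl
          exact hni (Finset.mem_filter.1 hj).1

theorem exists_const {β : Type u} {c : Cardinal.{u}} (hc : Cardinal.mk β < c)
    {J : Set I} (hJ : ∀ i ∈ J, CardinalInterFilter (U i : Filter (A i)) c)
    {s : Finset I} (hs : (s : Set I) ⊆ J)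
    {f : (∀ i, A i) → β} (hf : Dep f s) : ∃ b, ∀ᶠ ω in pf U, f ω = b := by
  classical
  obtain ⟨g, hg, hfg⟩ := exists_reduce U hc hJ (K := ∅) (by simp) (s := s)
    (fun i hi => Or.inr (hs hi)) hf
  obtain ⟨ω₀, -⟩ := exists_branch U (fun _ _ => univ) (fun _ _ => univ_mem)
  refine ⟨g ω₀, hfg.mono fun ω hω => hω.trans ?_⟩
  exact hg (by simp)

/-! ### Fubini -/

open Classical in
theorem fub_le {J₁ J₂ : Set I} (hJ : ∀ i ∈ J₁, ∀ j ∈ J₂, i < j) {P : (∀ i, A i) → Prop}
    {s : Finset I} (hs : (s : Set I) ⊆ J₁ ∪ J₂) (h : Dep P s) :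
    (∀ᶠ ω in pf U, P ω) ↔ ∀ᶠ ω in pf U, ∀ᶠ ω' in pf U, P (J₁.piecewise ω ω') := by
  induction s using Finset.induction_on_max generalizing P with
  | empty =>
    have : ∀ x y, P x = P y := fun x y => h (by simp)
    constructor
    · intro hP
      obtain ⟨ω₀, h0⟩ := hP.exists
      exact Eventually.of_forall fun ω => Eventually.of_forall fun ω' => by
        rw [this _ ω₀]; exact h0
    · intro hP
      obtain ⟨ω₀, h0⟩ := hP.exists
      obtain ⟨ω₁, h1⟩ := h0.exists
      exact Eventually.of_forall fun ω => by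
        rw [this ω _]; exact h1
  | insert i s hsi ih =>
    by_cases hi : i ∈ J₁
    · have hall : ∀ j ∈ insert i s, j ∈ J₁ := by
        intro j hj
        rcases Finset.mem_insert.1 hj with rfl | hj'
        · exact hi
        · rcases hs (Finset.mem_coe.2 hj) with h' | h'
          · exact h'
          · exact absurd (hJ i hi j h') (not_lt.2 (hsi j hj').le)
      have : ∀ ω ω', P (J₁.piecewise ω ω') = P ω := fun ω ω' => h fun j hj => by
        rw [piecewise_eq_of_mem _ _ _ (hall j hj)]
      simp only [this, eventually_const]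
    · have hiJ : i ∈ J₂ := (hs (Finset.mem_coe.2 (Finset.mem_insert_self i s))).resolve_left hi
      rw [ev_step_iff U hsi h, ih (fun j hj => hs (by
        rw [Finset.coe_insert]; exact mem_insert_of_mem _ hj)) (Dep.step U h)]
      refine eventually_congr (Eventually.of_forall fun ω => ?_)
      have hQ : Dep (fun ω' => P (J₁.piecewise ω ω')) (insert i s) := by
        intro x y hxy
        refine h fun j hj => ?_
        by_cases hj1 : j ∈ J₁
        · rw [piecewise_eq_of_mem _ _ _ hj1, piecewise_eq_of_mem _ _ _ hj1]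
        · rw [piecewise_eq_of_notMem _ _ _ hj1, piecewise_eq_of_notMem _ _ _ hj1]
          exact hxy j hj
      rw [ev_step_iff U hsi hQ]
      refine eventually_congr (Eventually.of_forall fun ω' => ?_)
      rw [step_def, step_def]
      refine eventually_congr (Eventually.of_forall fun a => ?_)
      have : update (J₁.piecewise ω ω') i a = J₁.piecewise ω (update ω' i a) := by
        funext j
        by_cases hji : j = i
        · subst hji
          rw [update_self, piecewise_eq_of_notMem _ _ _ hi, update_self]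
        · rw [update_of_ne hji]
          by_cases hj1 : j ∈ J₁
          · rw [piecewise_eq_of_mem _ _ _ hj1, piecewise_eq_of_mem _ _ _ hj1]
          · rw [piecewise_eq_of_notMem _ _ _ hj1, piecewise_eq_of_notMem _ _ _ hj1,
              update_of_ne hji]
      rw [this]

open Classical in
/-- Fubini in the other order, when the inner coordinates are small compared with the completeness
of the outer ones. -/
theorem fub_ge {J₁ J₂ : Set I} (hJ : ∀ i ∈ J₁, ∀ j ∈ J₂, i < j) {c : Cardinal.{u}}
    (hc : c.IsStrongLimit) (hA : ∀ i ∈ J₁, Cardinal.mk (A i) < c)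
    (hU : ∀ i ∈ J₂, CardinalInterFilter (U i : Filter (A i)) c) {P : (∀ i, A i) → Prop}
    {s : Finset I} (hs : (s : Set I) ⊆ J₁ ∪ J₂) (h : Dep P s) :
    (∀ᶠ ω in pf U, P ω) ↔ ∀ᶠ ω' in pf U, ∀ᶠ ω in pf U, P (J₁.piecewise ω ω') := by
  let s₁ := s.filter (· ∈ J₁)
  let s₂ := s.filter (· ∉ J₁)
  let glue : (∀ i : s₁, A i) → (∀ i, A i) → ∀ i, A i := fun t ω' i =>
    if hi : i ∈ s₁ then t ⟨i, hi⟩ else ω' i
  let T : (∀ i, A i) → Set (∀ i : s₁, A i) := fun ω' => {t | P (glue t ω')}
  have hT : Dep T s₂ := by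
    intro x y hxy
    ext t
    show P (glue t x) ↔ P (glue t y)
    rw [h (x := glue t x) (y := glue t y)]
    intro j hj
    by_cases hj1 : j ∈ s₁
    · simp only [glue, dif_pos hj1]
    · simp only [glue, dif_neg hj1]
      refine hxy j (Finset.mem_filter.2 ⟨hj, fun hj' => hj1 (Finset.mem_filter.2 ⟨hj, hj'⟩)⟩)
  have hcard : Cardinal.mk (Set (∀ i : s₁, A i)) < c := by
    rw [Cardinal.mk_set]
    exact hc.isStrongPrelimit (mk_pi_lt hc.aleph0_le fun i =>
      hA i (Finset.mem_filter.1 i.2).2)
  obtain ⟨T₀, hT₀⟩ := exists_const U hcard (J := J₂) hU (s := s₂) (by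
    intro i hi
    have hi' := Finset.mem_filter.1 (Finset.mem_coe.1 hi)
    exact (hs (Finset.mem_coe.2 hi'.1)).resolve_left hi'.2) hT
  let r : (∀ i, A i) → ∀ i : s₁, A i := fun ω i => ω i
  have hr : ∀ ω ω', P (J₁.piecewise ω ω') ↔ r ω ∈ T ω' := by
    intro ω ω'
    show _ ↔ P (glue (r ω) ω')
    rw [h (x := J₁.piecewise ω ω') (y := glue (r ω) ω')]
    intro j hj
    by_cases hj1 : j ∈ J₁
    · have : j ∈ s₁ := Finset.mem_filter.2 ⟨hj, hj1⟩
      rw [piecewise_eq_of_mem _ _ _ hj1]
      simp only [glue, dif_pos this, r]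
    · have : j ∉ s₁ := fun h' => hj1 (Finset.mem_filter.1 h').2
      rw [piecewise_eq_of_notMem _ _ _ hj1]
      simp only [glue, dif_neg this]
  rw [fub_le U hJ hs h]
  simp only [hr]
  have h1 : (∀ᶠ ω in pf U, ∀ᶠ ω' in pf U, r ω ∈ T ω') ↔ ∀ᶠ ω in pf U, r ω ∈ T₀ := by
    refine eventually_congr (Eventually.of_forall fun ω => ?_)
    constructor
    · intro h'
      obtain ⟨ω', h1, h2⟩ := (h'.and hT₀).exists
      rwa [h2] at h1
    · intro h'
      refine hT₀.mono fun ω' h2 => ?_
      rwa [h2]
  have h2 : (∀ᶠ ω' in pf U, ∀ᶠ ω in pf U, r ω ∈ T ω') ↔ ∀ᶠ ω in pf U, r ω ∈ T₀ := by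
    constructor
    · intro h'
      obtain ⟨ω', h1, h2⟩ := (h'.and hT₀).exists
      rwa [h2] at h1
    · intro h'
      refine hT₀.mono fun ω' h2 => ?_
      rwa [h2]
  rw [h1, h2]

end Prod

end Pool.Agent.SigOrd
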