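import Pool.Agent.SigOrd.Prod
import Pool.Agent.SigOrd.Defs

/-!
The limit ultrapower of the universe `ZFSet` by the iterated product filter, its Mostowski
collapse, and the theorem of Los for formulas with bounded quantifiers.
-/

universe u v

set_option linter.unusedSectionVars false

namespace Pool.Agent.SigOrd

open Filter Set Function

section Ult

variable {I : Type u} [LinearOrder I] [WellFoundedLT I] {A : I → Type u}

/-- The functions on the product with finite support contained in `J`. -/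
def FS (A : I → Type u) (J : Set I) : Type (u + 1) :=
  {f : (∀ i, A i) → ZFSet.{u} // ∃ s : Finset I, (s : Set I) ⊆ J ∧ Dep f s}

variable (U : ∀ i, Ultrafilter (A i)) {J : Set I}

/-- Membership in the limit ultrapower. -/
def Rm (g f : FS A J) : Prop := ∀ᶠ ω in pf U, g.1 ω ∈ f.1 ω

/-- Equality in the limit ultrapower. -/
def Re (g f : FS A J) : Prop := ∀ᶠ ω in pf U, g.1 ω = f.1 ω

theorem Re.symm {U : ∀ i, Ultrafilter (A i)} {g f : FS A J} (h : Re U g f) : Re U f g :=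
  h.mono fun _ h => h.symm

theorem Re.refl (g : FS A J) : Re U g g := Eventually.of_forall fun _ => rfl

theorem Re.trans {U : ∀ i, Ultrafilter (A i)} {g f h : FS A J} (h1 : Re U g f) (h2 : Re U f h) :
    Re U g h := by
  filter_upwards [h1, h2] with ω a b using a.trans b

theorem Rm.congr {U : ∀ i, Ultrafilter (A i)} {g f g' f' : FS A J} (h : Rm U g f)
    (h1 : Re U g g') (h2 : Re U f f') : Rm U g' f' := by
  filter_upwards [h, h1, h2] with ω a b c
  rw [← b, ← c]; exact a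

theorem dep_two (f g : FS A J) : ∃ s : Finset I, (s : Set I) ⊆ J ∧ Dep f.1 s ∧ Dep g.1 s := by
  classical
  obtain ⟨s, hs, h⟩ := f.2
  obtain ⟨t, ht, h'⟩ := g.2
  refine ⟨s ∪ t, ?_, h.mono Finset.subset_union_left, h'.mono Finset.subset_union_right⟩
  rw [Finset.coe_union]
  exact union_subset hs ht

theorem exists_choice_fun {β : Type v} [Nonempty β] {Q : (∀ i, A i) → β → Prop} {s : Finset I}
    (hQ : Dep Q s) : ∃ g : (∀ i, A i) → β, Dep g s ∧ ∀ ω, (∃ z, Q ω z) → Q ω (g ω) := by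
  refine ⟨fun ω => Classical.epsilon (Q ω), fun x y hxy => ?_, fun ω h => ?_⟩
  · show Classical.epsilon (Q x) = Classical.epsilon (Q y)
    rw [hQ hxy]
  · exact Classical.epsilon_spec h

theorem exists_choice {Q : (∀ i, A i) → ZFSet.{u} → Prop} {s : Finset I}
    (hs : (s : Set I) ⊆ J) (hQ : Dep Q s) :
    ∃ g : FS A J, Dep g.1 s ∧ ∀ ω, (∃ z, Q ω z) → Q ω (g.1 ω) := by
  obtain ⟨g, hg, h⟩ := exists_choice_fun (β := ZFSet.{u}) hQ
  exact ⟨⟨g, s, hs, hg⟩, hg, h⟩

theorem Re_em (f g : FS A J) : Re U f g ∨ ∀ᶠ ω in pf U, f.1 ω ≠ g.1 ω := by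
  obtain ⟨s, -, h1, h2⟩ := dep_two f g
  exact ultra U (P := fun ω => f.1 ω = g.1 ω) (h1.comp2 h2 _)

theorem Rm_em (f g : FS A J) : Rm U f g ∨ ∀ᶠ ω in pf U, f.1 ω ∉ g.1 ω := by
  obtain ⟨s, -, h1, h2⟩ := dep_two f g
  exact ultra U (P := fun ω => f.1 ω ∈ g.1 ω) (h1.comp2 h2 fun a b => a ∈ b)

variable [∀ i, CountableInterFilter (U i : Filter (A i))]

theorem Rm_wf : WellFounded (Rm U (J := J)) := by
  rw [wellFounded_iff_isEmpty_descending_chain]
  refine ⟨fun ⟨f, hf⟩ => ?_⟩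
  have h : ∀ᶠ ω in pf U, ∀ n, (f (n + 1)).1 ω ∈ (f n).1 ω :=
    eventually_countable_forall.2 hf
  obtain ⟨ω, hω⟩ := h.exists
  have := wellFounded_iff_isEmpty_descending_chain.1 ZFSet.mem_wf
  exact this.false ⟨fun n => (f n).1 ω, hω⟩

/-- The functions which are selectors of `f` or empty, and almost everywhere in `f`. -/
def Sel (f : FS A J) : Type (u + 1) := {g : FS A J // (∀ ω, g.1 ω = ∅ ∨ g.1 ω ∈ f.1 ω) ∧ Rm U g f}

instance (f : FS A J) : Small.{u} (Sel U f) := by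
  let F : Sel U f → ∀ ω : (∀ i, A i), {z : ZFSet.{u} // z ∈ insert ∅ (f.1 ω)} := fun g ω =>
    ⟨g.1.1 ω, by
      rw [ZFSet.mem_insert_iff]
      exact g.2.1 ω⟩
  have hF : Injective F := by
    intro g g' h
    apply Subtype.ext
    apply Subtype.ext
    funext ω
    exact congrArg Subtype.val (congrFun h ω)
  have : ∀ ω : (∀ i, A i), Small.{u} {z : ZFSet.{u} // z ∈ insert ∅ (f.1 ω)} := fun ω =>
    ZFSet.small_coe (insert ∅ (f.1 ω))
  exact small_of_injective hF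

/-- The Mostowski collapse of the limit ultrapower. -/
noncomputable def col (f : FS A J) : ZFSet.{u} :=
  (Rm_wf U (J := J)).fix (fun f rec => ZFSet.range (fun g : Sel U f => rec g.1 g.2.2)) f

theorem col_eq (f : FS A J) : col U f = ZFSet.range (fun g : Sel U f => col U g.1) :=
  WellFounded.fix_eq _ _ f

open Classical in
theorem exists_sel {g f : FS A J} (h : Rm U g f) : ∃ g' : Sel U f, Re U g g'.1 := by
  obtain ⟨s, hs, h1, h2⟩ := dep_two g f
  have h3 : Dep (fun ω => if g.1 ω ∈ f.1 ω then g.1 ω else ∅) s := by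
    intro x y hxy
    simp only [h1 hxy, h2 hxy]
  have h4 : ∀ᶠ ω in pf U, g.1 ω = if g.1 ω ∈ f.1 ω then g.1 ω else ∅ :=
    h.mono fun ω hω => by rw [if_pos hω]
  refine ⟨⟨⟨fun ω => if g.1 ω ∈ f.1 ω then g.1 ω else ∅, s, hs, h3⟩, ?_, ?_⟩, h4⟩
  · intro ω
    by_cases hω : g.1 ω ∈ f.1 ω
    · right; simp only [if_pos hω]; exact hω
    · left; simp only [if_neg hω]
  · show ∀ᶠ ω in pf U, (if g.1 ω ∈ f.1 ω then g.1 ω else ∅) ∈ f.1 ω
    filter_upwards [h] with ω hω
    rw [if_pos hω]; exact hω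

theorem col_congr {f f' : FS A J} (h : Re U f f') : col U f = col U f' := by
  induction f using (Rm_wf U (J := J)).induction generalizing f' with
  | _ f ih =>
    ext z
    rw [col_eq, col_eq, ZFSet.mem_range, ZFSet.mem_range]
    constructor
    · rintro ⟨g, rfl⟩
      have h1 : Rm U g.1 f' := g.2.2.congr (Re.refl U _) h
      obtain ⟨g', hg'⟩ := exists_sel U h1
      exact ⟨g', (ih g.1 g.2.2 hg').symm⟩
    · rintro ⟨g', rfl⟩
      have h1 : Rm U g'.1 f := g'.2.2.congr (Re.refl U _) h.symm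
      obtain ⟨g, hg⟩ := exists_sel U h1
      exact ⟨g, ih g.1 g.2.2 hg.symm⟩

theorem mem_col {f : FS A J} {z : ZFSet.{u}} : z ∈ col U f ↔ ∃ g, Rm U g f ∧ col U g = z := by
  rw [col_eq, ZFSet.mem_range]
  constructor
  · rintro ⟨g, rfl⟩
    exact ⟨g.1, g.2.2, rfl⟩
  · rintro ⟨g, hg, rfl⟩
    obtain ⟨g', hg'⟩ := exists_sel U hg
    exact ⟨g', (col_congr U hg').symm⟩

theorem Re_of_col_eq {f f' : FS A J} (h : col U f = col U f') : Re U f f' := by
  induction f using (Rm_wf U (J := J)).induction generalizing f' with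
  | _ f ih =>
    rcases Re_em U f f' with h1 | h1
    · exact h1
    exfalso
    obtain ⟨s, hs, h2, h3⟩ := dep_two f f'
    have h4 : ∀ᶠ ω in pf U, (∃ z, z ∈ f.1 ω ∧ z ∉ f'.1 ω) ∨ (∃ z, z ∈ f'.1 ω ∧ z ∉ f.1 ω) := by
      filter_upwards [h1] with ω hω
      by_contra hcon
      push Not at hcon
      exact hω (ZFSet.ext fun z => ⟨fun hz => hcon.1 z hz, fun hz => hcon.2 z hz⟩)
    rcases ultra U (P := fun ω => ∃ z, z ∈ f.1 ω ∧ z ∉ f'.1 ω) (s := s)
      (h2.comp2 h3 fun a b => ∃ z, z ∈ a ∧ z ∉ b) with h5 | h5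
    · obtain ⟨g, -, hg⟩ := exists_choice (J := J) (Q := fun ω z => z ∈ f.1 ω ∧ z ∉ f'.1 ω) hs
        (h2.comp2 h3 fun a b z => z ∈ a ∧ z ∉ b)
      have h6 : Rm U g f := h5.mono fun ω hω => (hg ω hω).1
      have h7 : ∀ᶠ ω in pf U, g.1 ω ∉ f'.1 ω := h5.mono fun ω hω => (hg ω hω).2
      have h8 : col U g ∈ col U f' := by
        rw [← h]; exact (mem_col U).2 ⟨g, h6, rfl⟩
      obtain ⟨g', hg', he⟩ := (mem_col U).1 h8
      have h9 := ih g h6 he.symm
      obtain ⟨ω, ha, hb, hc⟩ := (h7.and (hg'.and h9)).exists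
      exact ha (by rw [hc]; exact hb)
    · have h5' : ∀ᶠ ω in pf U, ∃ z, z ∈ f'.1 ω ∧ z ∉ f.1 ω := by
        filter_upwards [h4, h5] with ω a b using a.resolve_left b
      obtain ⟨g', -, hg⟩ := exists_choice (J := J) (Q := fun ω z => z ∈ f'.1 ω ∧ z ∉ f.1 ω) hs
        (h3.comp2 h2 fun a b z => z ∈ a ∧ z ∉ b)
      have h6 : Rm U g' f' := h5'.mono fun ω hω => (hg ω hω).1
      have h7 : ∀ᶠ ω in pf U, g'.1 ω ∉ f.1 ω := h5'.mono fun ω hω => (hg ω hω).2
      have h8 : col U g' ∈ col U f := by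
        rw [h]; exact (mem_col U).2 ⟨g', h6, rfl⟩
      obtain ⟨g, hg', he⟩ := (mem_col U).1 h8
      have h9 := ih g hg' he
      obtain ⟨ω, ha, hb, hc⟩ := (h7.and (hg'.and h9)).exists
      exact ha (by rw [← hc]; exact hb)

theorem col_eq_iff {f f' : FS A J} : col U f = col U f' ↔ Re U f f' :=
  ⟨Re_of_col_eq U, col_congr U⟩

theorem col_mem_iff {g f : FS A J} : col U g ∈ col U f ↔ Rm U g f := by
  rw [mem_col]
  constructor
  · rintro ⟨g', h1, h2⟩
    exact h1.congr ((col_eq_iff U).1 h2) (Re.refl U _)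
  · intro h
    exact ⟨g, h, rfl⟩

theorem dep_all {n : ℕ} (v : Fin n → FS A J) :
    ∃ s : Finset I, (s : Set I) ⊆ J ∧ Dep (fun ω i => (v i).1 ω) s := by
  classical
  choose s hs h using fun i => (v i).2
  refine ⟨Finset.univ.biUnion s, ?_, ?_⟩
  · intro i hi
    obtain ⟨k, -, hk⟩ := Finset.mem_biUnion.1 (Finset.mem_coe.1 hi)
    exact hs k hk
  · intro x y hxy
    funext i
    exact h i fun j hj => hxy j (Finset.mem_biUnion.2 ⟨i, Finset.mem_univ i, hj⟩)

/-- The theorem of Los for formulas with bounded quantifiers. -/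
theorem los {n : ℕ} (φ : D0 n) (v : Fin n → FS A J) :
    φ.Sat (fun i => col U (v i)) ↔ ∀ᶠ ω in pf U, φ.Sat (fun i => (v i).1 ω) := by
  induction φ with
  | mem i j => exact col_mem_iff U
  | eq i j => exact col_eq_iff U
  | neg φ ih =>
    obtain ⟨s, -, hs⟩ := dep_all v
    show ¬ φ.Sat (fun i => col U (v i)) ↔ ∀ᶠ ω in pf U, ¬ φ.Sat (fun i => (v i).1 ω)
    rw [ih v, ev_not U (P := fun ω => φ.Sat (fun i => (v i).1 ω)) (hs.comp φ.Sat)]
  | and φ ψ ih1 ih2 =>
    show (φ.Sat (fun i => col U (v i)) ∧ ψ.Sat (fun i => col U (v i))) ↔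
      ∀ᶠ ω in pf U, φ.Sat (fun i => (v i).1 ω) ∧ ψ.Sat (fun i => (v i).1 ω)
    rw [ih1 v, ih2 v, eventually_and]
  | bex i φ ih =>
    obtain ⟨s, hs, hv⟩ := dep_all v
    show (∃ z, z ∈ col U (v i) ∧ φ.Sat (Fin.cons z fun i => col U (v i))) ↔
      ∀ᶠ ω in pf U, ∃ z, z ∈ (v i).1 ω ∧ φ.Sat (Fin.cons z fun i => (v i).1 ω)
    have key : ∀ g : FS A J, φ.Sat (Fin.cons (col U g) fun i => col U (v i)) ↔
        ∀ᶠ ω in pf U, φ.Sat (Fin.cons (g.1 ω) fun i => (v i).1 ω) := by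
      intro g
      have h1 : (Fin.cons (col U g) fun i => col U (v i) : Fin _ → ZFSet) =
          fun k => col U ((Fin.cons g v : Fin _ → FS A J) k) := by
        funext k
        refine Fin.cases ?_ (fun k => ?_) k <;> simp
      have h2 : ∀ ω, (Fin.cons (g.1 ω) fun i => (v i).1 ω : Fin _ → ZFSet) =
          fun k => ((Fin.cons g v : Fin _ → FS A J) k).1 ω := by
        intro ω
        funext k
        refine Fin.cases ?_ (fun k => ?_) k <;> simp
      rw [h1, ih]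
      simp only [h2]
    constructor
    · rintro ⟨z, hz, hφ⟩
      obtain ⟨g, hg, rfl⟩ := (mem_col U).1 hz
      have := (key g).1 hφ
      filter_upwards [hg, this] with ω a b using ⟨_, a, b⟩
    · intro h
      obtain ⟨g, -, hg⟩ := exists_choice (J := J) (s := s)
        (Q := fun ω z => z ∈ (v i).1 ω ∧ φ.Sat (Fin.cons z fun i => (v i).1 ω)) hs
        (hv.comp fun w z => z ∈ w i ∧ φ.Sat (Fin.cons z w))
      refine ⟨col U g, (mem_col U).2 ⟨g, h.mono fun ω hω => (hg ω hω).1, rfl⟩, (key g).2 ?_⟩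
      exact h.mono fun ω hω => (hg ω hω).2

/-- The constant function. -/
def cst (x : ZFSet.{u}) : FS A J := ⟨fun _ => x, ∅, by simp, Dep.const x _⟩

variable (J)

/-- The embedding of the universe into the collapsed limit ultrapower. -/
noncomputable def emb (x : ZFSet.{u}) : ZFSet.{u} := col U (cst (J := J) x)

theorem emb_sat {n : ℕ} (φ : D0 n) (v : Fin n → ZFSet.{u}) :
    φ.Sat (fun i => emb U J (v i)) ↔ φ.Sat v := by
  unfold emb
  rw [los U φ fun i => cst (v i)]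
  show (∀ᶠ _ω in pf U, φ.Sat v) ↔ _
  simp

theorem emb_mem {x y : ZFSet.{u}} : emb U J x ∈ emb U J y ↔ x ∈ y := by
  unfold emb
  rw [col_mem_iff]
  show (∀ᶠ _ω in pf U, x ∈ y) ↔ _
  simp

theorem emb_inj {x y : ZFSet.{u}} : emb U J x = emb U J y ↔ x = y := by
  unfold emb
  rw [col_eq_iff]
  show (∀ᶠ _ω in pf U, x = y) ↔ _
  simp

theorem emb_sigma {n : ℕ} (φ : D0 (n + 1)) (v : Fin n → ZFSet.{u})
    (h : ∃ w, φ.Sat (Fin.cons w v)) : ∃ w, φ.Sat (Fin.cons w fun i => emb U J (v i)) := by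
  obtain ⟨w, hw⟩ := h
  refine ⟨emb U J w, ?_⟩
  rw [← emb_sat U J] at hw
  have h1 : (Fin.cons (emb U J w) fun i => emb U J (v i) : Fin _ → ZFSet) =
      fun k => emb U J ((Fin.cons w v : Fin _ → ZFSet) k) := by
    funext k
    refine Fin.cases ?_ (fun k => ?_) k <;> simp
  rw [h1]
  exact hw

end Ult

end Pool.Agent.SigOrd
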